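import Pool.Agent.H21.PA.Seq

/-!
The parameters of the construction.
-/

set_option autoImplicit false

namespace Pool.Agent.H21.PA

theorem mm_mono {d D : ℕ} (h : d ≤ D) : mm d ≤ mm D := by
  unfold mm
  apply Finset.prod_le_prod_of_subset_of_one_le' (Finset.Icc_subset_Icc_right h)
  intro f hf _
  rw [Finset.mem_Icc] at hf
  have h1 : 2 ^ 1 ≤ 2 ^ f := Nat.pow_le_pow_right two_pos hf.1
  omega

theorem mm_le (d : ℕ) : mm d ≤ 2 ^ d ^ 2 := by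
  unfold mm
  calc ∏ f ∈ Finset.Icc 1 d, (2 ^ f - 1) ≤ ∏ _f ∈ Finset.Icc 1 d, 2 ^ d := by
        apply Finset.prod_le_prod'
        intro f hf
        rw [Finset.mem_Icc] at hf
        exact (Nat.sub_le _ _).trans (Nat.pow_le_pow_right two_pos hf.2)
    _ = 2 ^ d ^ 2 := by
        rw [Finset.prod_const, Nat.card_Icc, Nat.add_sub_cancel, ← pow_mul, sq]

theorem sum_SS_le (k D : ℕ) (hk : 1 ≤ k) (hD : 1 ≤ D) :
    ∑ s ∈ SS k D, s ≤ 4 * D ^ 3 * k ^ 2 * 2 ^ D ^ 2 := by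
  have h1 : ∀ s ∈ SS k D, s ≤ 2 ^ D ^ 2 * (2 * (D * k)) := by
    intro s hs
    unfold SS at hs
    obtain ⟨d, hd, hs2⟩ := Finset.mem_biUnion.mp hs
    obtain ⟨s', hs', rfl⟩ := Finset.mem_image.mp hs2
    rw [Finset.mem_Icc] at hd hs'
    refine Nat.mul_le_mul ((mm_mono hd.2).trans (mm_le D)) (hs'.2.trans ?_)
    exact Nat.mul_le_mul_left _ (Nat.mul_le_mul_right _ hd.2)
  have h2 : (SS k D).card ≤ D * (2 * (D * k)) := by
    unfold SS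
    refine Finset.card_biUnion_le.trans ?_
    refine (Finset.sum_le_card_nsmul _ _ (2 * (D * k)) ?_).trans ?_
    · intro d hd
      rw [Finset.mem_Icc] at hd
      refine Finset.card_image_le.trans ?_
      rw [Nat.card_Icc]
      have h3 : d * k ≤ D * k := Nat.mul_le_mul_right _ hd.2
      have h4 : 1 ≤ D * k := Nat.mul_pos hD hk
      omega
    · rw [Nat.card_Icc, Nat.add_sub_cancel, smul_eq_mul]
  refine (Finset.sum_le_card_nsmul _ _ _ h1).trans ?_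
  rw [smul_eq_mul]
  refine (Nat.mul_le_mul_right _ h2).trans (le_of_eq ?_)
  ring

/-- the largest degree of the first kind -/
def DD (i : ℕ) : ℕ :=
  Nat.findGreatest (fun D => ∑ s ∈ SS (2 * i + 7) D, s + 1 < 2 ^ (i + 4)) i

theorem DD_spec (i : ℕ) : ∑ s ∈ SS (2 * i + 7) (DD i), s + 1 < 2 ^ (i + 4) := by
  unfold DD
  apply Nat.findGreatest_spec (P := fun D => ∑ s ∈ SS (2 * i + 7) D, s + 1 < 2 ^ (i + 4))
    (Nat.zero_le i)
  have h1 : SS (2 * i + 7) 0 = ∅ := by simp [SS]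
  show ∑ s ∈ SS (2 * i + 7) 0, s + 1 < 2 ^ (i + 4)
  rw [h1, Finset.sum_empty]
  have : 2 ^ 4 ≤ 2 ^ (i + 4) := Nat.pow_le_pow_right two_pos (by omega)
  omega

theorem pow_four_le (i : ℕ) : (2 * i + 7) ^ 4 ≤ 2 ^ 12 * 2 ^ i := by
  rcases lt_or_ge i 2 with h | h
  · interval_cases i <;> norm_num
  · induction i, h using Nat.le_induction with
    | base => norm_num
    | succ j hj ih =>
      obtain ⟨l, rfl⟩ : ∃ l, j = l + 2 := ⟨j - 2, by omega⟩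
      have h1 : (2 * (l + 2 + 1) + 7) ^ 4 ≤ 2 * (2 * (l + 2) + 7) ^ 4 := by
        ring_nf
        nlinarith [Nat.zero_le l, Nat.zero_le (l ^ 2), Nat.zero_le (l ^ 3), Nat.zero_le (l ^ 4)]
      calc _ ≤ _ := h1
        _ ≤ 2 * (2 ^ 12 * 2 ^ (l + 2)) := Nat.mul_le_mul_left _ ih
        _ = _ := by ring

theorem pow_le_of_DD_lt (i d : ℕ) (h : DD i < d) : 2 ^ i ≤ 2 ^ 10 * d ^ 6 * 2 ^ (2 * d ^ 2) := by
  have hd : 1 ≤ d := by omega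
  rcases lt_or_ge i d with h1 | h1
  · have h2 : 2 ^ i ≤ 2 ^ (2 * d ^ 2) := by
      apply Nat.pow_le_pow_right two_pos
      nlinarith
    have h3 : 1 ≤ 2 ^ 10 * d ^ 6 := Nat.mul_pos (by positivity) (Nat.pow_pos hd)
    exact h2.trans (Nat.le_mul_of_pos_left _ h3)
  · have h2 : ¬ (∑ s ∈ SS (2 * i + 7) d, s + 1 < 2 ^ (i + 4)) := by
      intro h3
      have h4 := Nat.le_findGreatest
        (P := fun D => ∑ s ∈ SS (2 * i + 7) D, s + 1 < 2 ^ (i + 4)) h1 h3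
      unfold DD at h
      omega
    push Not at h2
    have h3 := sum_SS_le (2 * i + 7) d (by omega) hd
    have h4 : 1 ≤ 4 * d ^ 3 * (2 * i + 7) ^ 2 * 2 ^ d ^ 2 := by
      have : 0 < 4 * d ^ 3 * (2 * i + 7) ^ 2 * 2 ^ d ^ 2 := by positivity
      exact this
    have h5 : 2 ^ (i + 4) ≤ 2 * (4 * d ^ 3 * (2 * i + 7) ^ 2 * 2 ^ d ^ 2) := by omega
    have h6 : 2 ^ (i + 4) ≤ 2 ^ 3 * d ^ 3 * (2 * i + 7) ^ 2 * 2 ^ d ^ 2 := by
      refine h5.trans (le_of_eq ?_)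
      ring
    have h7 := Nat.pow_le_pow_left h6 2
    have h8 : (2 ^ 3 * d ^ 3 * (2 * i + 7) ^ 2 * 2 ^ d ^ 2) ^ 2 =
        2 ^ 6 * d ^ 6 * 2 ^ (2 * d ^ 2) * (2 * i + 7) ^ 4 := by
      rw [pow_mul 2 2 (d ^ 2)]
      have : ((2 : ℕ) ^ 2) ^ d ^ 2 = (2 ^ d ^ 2) ^ 2 := by rw [← pow_mul, ← pow_mul, mul_comm]
      rw [this]
      ring
    have h9 : (2 ^ (i + 4)) ^ 2 = 2 ^ i * (2 ^ 8 * 2 ^ i) := by ring
    have h10 : 2 ^ i * (2 ^ 8 * 2 ^ i) ≤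
        (2 ^ 10 * d ^ 6 * 2 ^ (2 * d ^ 2)) * (2 ^ 8 * 2 ^ i) := by
      rw [← h9]
      refine h7.trans ?_
      rw [h8]
      refine (Nat.mul_le_mul_left _ (pow_four_le i)).trans (le_of_eq ?_)
      ring
    exact Nat.le_of_mul_le_mul_right h10 (by positivity)

theorem md_le (i d : ℕ) (hd : 1 ≤ d) :
    md (2 ^ (2 * i + 6)) (2 ^ (i + 4)) d ≤ (2 ^ (i + 3) + 1) * (d * (d + 3) / 2) := by
  obtain ⟨g, hg⟩ : ∃ g, g = d * (d + 3) / 2 := ⟨_, rfl⟩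
  have hg1 : 1 ≤ g := by
    rw [hg]
    have : 1 * 4 ≤ d * (d + 3) := Nat.mul_le_mul hd (by omega)
    omega
  unfold md
  rw [← hg]
  obtain ⟨u, hu⟩ : ∃ u, u = 2 ^ (i + 3) := ⟨_, rfl⟩
  have hu8 : 8 ≤ u := by
    rw [hu]
    calc 8 = 2 ^ 3 := by norm_num
      _ ≤ 2 ^ (i + 3) := Nat.pow_le_pow_right two_pos (by omega)
  have h1 : 2 ^ (2 * i + 6) = u * u := by
    rw [hu]
    ring
  have h2 : 2 ^ (i + 4) = 2 * u := by
    rw [hu]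
    ring
  rw [h1, h2, ← hu]
  have h3 : ((u * u + 1) * g + 4) / (2 * u - 2) ≤ ((u * u + 1) * g + 4) / u :=
    Nat.div_le_div_left (by omega) (by omega)
  have h4 : ((u * u + 1) * g + 4) / u < (u + 1) * g := by
    rw [Nat.div_lt_iff_lt_mul (by omega)]
    nlinarith
  omega

theorem le_two_pow (d : ℕ) : d ≤ 2 ^ (d - 1) := by
  rcases Nat.eq_zero_or_pos d with rfl | h
  · simp
  · obtain ⟨e, rfl⟩ : ∃ e, d = e + 1 := ⟨d - 1, by omega⟩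
    rw [Nat.add_sub_cancel]
    exact Nat.lt_two_pow_self

theorem first_le (i d : ℕ) (hd : 1 ≤ d) :
    2 * (2 * mm d * (d * (2 * i + 7)) * d ^ 2) ≤ 2 ^ (17 * d ^ 2) * (i + 1) := by
  have h1 : d ^ 3 ≤ 2 ^ (3 * d) := by
    calc d ^ 3 ≤ (2 ^ (d - 1)) ^ 3 := Nat.pow_le_pow_left (le_two_pow d) 3
      _ = 2 ^ (3 * (d - 1)) := by rw [← pow_mul, mul_comm]
      _ ≤ 2 ^ (3 * d) := Nat.pow_le_pow_right two_pos (by omega)
  calc 2 * (2 * mm d * (d * (2 * i + 7)) * d ^ 2) = 4 * mm d * d ^ 3 * (2 * i + 7) := by ring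
    _ ≤ 4 * 2 ^ d ^ 2 * 2 ^ (3 * d) * (8 * (i + 1)) := by
        apply Nat.mul_le_mul _ (by omega)
        apply Nat.mul_le_mul _ h1
        exact Nat.mul_le_mul_left _ (mm_le d)
    _ = 2 ^ (5 + d ^ 2 + 3 * d) * (i + 1) := by ring
    _ ≤ 2 ^ (17 * d ^ 2) * (i + 1) := by
        apply Nat.mul_le_mul_right
        apply Nat.pow_le_pow_right two_pos
        nlinarith

theorem second_le (i d : ℕ) (h : DD i < d) :
    md (2 ^ (2 * i + 6)) (2 ^ (i + 4)) d ≤ 2 ^ (17 * d ^ 2) := by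
  have hd : 1 ≤ d := by omega
  refine (md_le i d hd).trans ?_
  have h1 : 2 ^ (i + 3) + 1 ≤ 2 ^ (i + 4) := by
    have : 1 ≤ 2 ^ (i + 3) := Nat.one_le_two_pow
    have h2 : 2 ^ (i + 4) = 2 * 2 ^ (i + 3) := by ring
    omega
  have h2 : d * (d + 3) / 2 ≤ 2 * d ^ 2 := by
    have : d * (d + 3) ≤ 4 * d ^ 2 := by nlinarith
    omega
  have h3 := pow_le_of_DD_lt i d h
  have h4 : d ^ 8 ≤ 2 ^ (8 * (d - 1)) := by
    calc d ^ 8 ≤ (2 ^ (d - 1)) ^ 8 := Nat.pow_le_pow_left (le_two_pow d) 8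
      _ = 2 ^ (8 * (d - 1)) := by rw [← pow_mul, mul_comm]
  calc (2 ^ (i + 3) + 1) * (d * (d + 3) / 2) ≤ 2 ^ (i + 4) * (2 * d ^ 2) := Nat.mul_le_mul h1 h2
    _ = 2 ^ i * (2 ^ 5 * d ^ 2) := by ring
    _ ≤ (2 ^ 10 * d ^ 6 * 2 ^ (2 * d ^ 2)) * (2 ^ 5 * d ^ 2) := Nat.mul_le_mul_right _ h3
    _ = 2 ^ (15 + 2 * d ^ 2) * d ^ 8 := by ring
    _ ≤ 2 ^ (15 + 2 * d ^ 2) * 2 ^ (8 * (d - 1)) := Nat.mul_le_mul_left _ h4
    _ = 2 ^ (15 + 2 * d ^ 2 + 8 * (d - 1)) := by rw [← pow_add]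
    _ ≤ 2 ^ (17 * d ^ 2) := by
        apply Nat.pow_le_pow_right two_pos
        obtain ⟨e, rfl⟩ : ∃ e, d = e + 1 := ⟨d - 1, by omega⟩
        rw [Nat.add_sub_cancel]
        nlinarith

end Pool.Agent.H21.PA
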