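import Mathlib

/-!
The local lemma: power sums with exponents `m s`, `t ≤ s ≤ 2 t`, are small only if the number of
units is divisible by a high power of the prime.
-/

set_option autoImplicit false

namespace Pool.Agent.H21.PA

/-- An integer combination of `y ^ t, ..., y ^ (2 t)` which is `1` modulo `(1 - y) ^ (t + 1)`. -/
theorem exists_comb (t : ℕ) : ∃ (b : ℕ → ℤ) (g : Polynomial ℤ),
    ∑ s ∈ Finset.Icc t (2 * t), Polynomial.C (b s) * Polynomial.X ^ s =
      1 - (1 - Polynomial.X) ^ (t + 1) * g := by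
  have hc : IsCoprime ((Polynomial.X : Polynomial ℤ) ^ t) ((1 - Polynomial.X) ^ (t + 1)) := by
    apply IsCoprime.pow
    exact ⟨1, 1, by ring⟩
  obtain ⟨u, v, huv⟩ := hc
  have hq0 : (Polynomial.X - Polynomial.C (1 : ℤ)).Monic := Polynomial.monic_X_sub_C 1
  set Q : Polynomial ℤ := (Polynomial.X - Polynomial.C (1 : ℤ)) ^ (t + 1) with hQ
  have hqm : Q.Monic := hq0.pow (t + 1)
  have hqd : Q.degree = ((t + 1 : ℕ) : WithBot ℕ) := by
    rw [hQ, Polynomial.degree_pow, Polynomial.degree_X_sub_C]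
    simp
  have hdiv := Polynomial.modByMonic_add_div u Q
  set r : Polynomial ℤ := Polynomial.modByMonic u Q with hr
  have hrd : r.degree < ((t + 1 : ℕ) : WithBot ℕ) := by
    rw [← hqd]
    exact Polynomial.degree_modByMonic_lt u hqm
  have hrn : r.natDegree < t + 1 := by
    by_cases h0 : r = 0
    · rw [h0]
      simp
    · exact (Polynomial.natDegree_lt_iff_degree_lt h0).2 hrd
  have hQ1 : Q = (-1) ^ (t + 1) * (1 - Polynomial.X) ^ (t + 1) := by
    rw [hQ, ← mul_pow]
    congr 1
    simp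
  refine ⟨fun s => r.coeff (s - t), v + (-1) ^ (t + 1) * (Polynomial.divByMonic u Q) * Polynomial.X ^ t, ?_⟩
  have h1 : ∑ s ∈ Finset.Icc t (2 * t), Polynomial.C (r.coeff (s - t)) * (Polynomial.X : Polynomial ℤ) ^ s =
      r * Polynomial.X ^ t := by
    have h2 : Finset.Icc t (2 * t) = (Finset.range (t + 1)).image (fun i => i + t) := by
      ext s
      simp only [Finset.mem_Icc, Finset.mem_image, Finset.mem_range]
      constructor
      · intro h
        exact ⟨s - t, by omega, by omega⟩
      · rintro ⟨i, hi, rfl⟩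
        omega
    rw [h2, Finset.sum_image (by intro a _ b _ h; simpa using h)]
    conv_rhs => rw [Polynomial.as_sum_range_C_mul_X_pow' r hrn]
    rw [Finset.sum_mul]
    apply Finset.sum_congr rfl
    intro i _
    rw [Nat.add_sub_cancel, pow_add]
    ring
  rw [h1]
  have h3 : r = u - Q * Polynomial.divByMonic u Q := by
    linear_combination hdiv
  rw [h3, hQ1]
  linear_combination huv

/-- Let `I` be an ideal of `V` such that `z ^ m - 1 ∈ I` for all `z ∉ I`. If the power sums with
exponents `m s`, `t ≤ s ≤ 2 t`, of a finite family lie in `I ^ t`, then the number of members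
outside `I` lies in `I ^ t`. -/
theorem card_mem {V : Type*} [CommRing V] (I : Ideal V) (m t : ℕ) (hm : 1 ≤ m)
    (hI : ∀ z : V, z ∉ I → z ^ m - 1 ∈ I) {ι : Type*} [Fintype ι] (z : ι → V)
    (hz : ∀ s, t ≤ s → s ≤ 2 * t → ∑ i, z i ^ (m * s) ∈ I ^ t) :
    open Classical in (((Finset.univ.filter fun i => z i ∉ I).card : ℕ) : V) ∈ I ^ t := by
  classical
  obtain ⟨b, g, hbg⟩ := exists_comb t
  have hev : ∀ y : V, ∑ s ∈ Finset.Icc t (2 * t), (b s : V) * y ^ s =
      1 - (1 - y) ^ (t + 1) * Polynomial.aeval y g := by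
    intro y
    have h := congrArg (Polynomial.aeval y) hbg
    simpa [map_sum] using h
  have hterm : ∀ i, (if z i ∉ I then (1 : V) else 0) -
      ∑ s ∈ Finset.Icc t (2 * t), (b s : V) * (z i ^ m) ^ s ∈ I ^ t := by
    intro i
    by_cases h : z i ∈ I
    · rw [if_neg (not_not.2 h), zero_sub]
      apply neg_mem
      apply Ideal.sum_mem
      intro s hs
      apply Ideal.mul_mem_left
      have h1 : z i ^ m ∈ I := Ideal.pow_mem_of_mem I h m (by omega)
      exact Ideal.pow_le_pow_right (Finset.mem_Icc.1 hs).1 (Ideal.pow_mem_pow h1 s)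
    · rw [if_pos h, hev]
      have h1 : 1 - z i ^ m ∈ I := by
        have := neg_mem (hI (z i) h)
        rwa [neg_sub] at this
      have h2 : (1 - z i ^ m) ^ (t + 1) ∈ I ^ t :=
        Ideal.pow_le_pow_right (Nat.le_succ t) (Ideal.pow_mem_pow h1 (t + 1))
      rw [sub_sub_cancel]
      exact Ideal.mul_mem_right _ _ h2
  have hsum : ∑ i, ∑ s ∈ Finset.Icc t (2 * t), (b s : V) * (z i ^ m) ^ s ∈ I ^ t := by
    rw [Finset.sum_comm]
    apply Ideal.sum_mem
    intro s hs
    rw [← Finset.mul_sum]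
    apply Ideal.mul_mem_left
    have := hz s (Finset.mem_Icc.1 hs).1 (Finset.mem_Icc.1 hs).2
    simpa [pow_mul] using this
  rw [Finset.natCast_card_filter]
  have hall : ∑ i, ((if z i ∉ I then (1 : V) else 0) -
      ∑ s ∈ Finset.Icc t (2 * t), (b s : V) * (z i ^ m) ^ s) ∈ I ^ t :=
    Ideal.sum_mem _ fun i _ => hterm i
  rw [Finset.sum_sub_distrib] at hall
  have := add_mem hall hsum
  rwa [sub_add_cancel] at this

end Pool.Agent.H21.PA
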