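import Pool.Agent.H21.PA.Val
import Pool.Agent.H21.PA.Loc

/-!
The local lemma in a number field.
-/

set_option autoImplicit false

namespace Pool.Agent.H21.PA

/-- In a discrete valuation ring with `2 ∉ 𝔪 ^ (d + 1)`: a natural number `n0 < 2 ^ k`, `n0 ≠ 0`,
is not in `𝔪 ^ t` if `d k ≤ t`. -/
private theorem natCast_notMem (V : Type) [CommRing V] [IsDomain V] [IsDiscreteValuationRing V]
    (d t k : ℕ) (hd : 1 ≤ d) (hk : d * k ≤ t) (h2 : (2 : V) ∈ IsLocalRing.maximalIdeal V)
    (h2d : (2 : V) ∉ IsLocalRing.maximalIdeal V ^ (d + 1)) (n0 : ℕ) (hn0 : n0 ≠ 0)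
    (hlt : n0 < 2 ^ k) : ((n0 : ℕ) : V) ∉ IsLocalRing.maximalIdeal V ^ t := by
  intro hmem
  obtain ⟨a, b, hb, hab⟩ := Nat.exists_eq_two_pow_mul_odd hn0
  have hb0 : 0 < b := hb.pos
  have ha : a < k := by
    by_contra h
    have h1 : 2 ^ k ≤ 2 ^ a := Nat.pow_le_pow_right (by norm_num) (not_lt.1 h)
    have h3 : 2 ^ a ≤ n0 := by
      rw [hab]
      exact Nat.le_mul_of_pos_right _ hb0
    omega
  have hbu : IsUnit ((b : ℕ) : V) := by
    by_contra h
    have h1 : ((b : ℕ) : V) ∈ IsLocalRing.maximalIdeal V := (IsLocalRing.mem_maximalIdeal _).2 h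
    obtain ⟨e, he⟩ := hb
    have h3 : (1 : V) = ((b : ℕ) : V) - 2 * (e : V) := by
      rw [he]
      push_cast
      ring
    have h4 : (1 : V) ∈ IsLocalRing.maximalIdeal V := by
      rw [h3]
      exact Ideal.sub_mem _ h1 (Ideal.mul_mem_right _ _ h2)
    exact (IsLocalRing.maximalIdeal.isMaximal V).ne_top ((Ideal.eq_top_iff_one _).2 h4)
  have h5 : (2 : V) ^ a ∈ IsLocalRing.maximalIdeal V ^ t := by
    rw [hab] at hmem
    push_cast at hmem
    exact (Ideal.mul_unit_mem_iff_mem _ hbu).1 hmem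
  obtain ⟨π, hπ⟩ := IsDiscreteValuationRing.exists_irreducible V
  have hm : IsLocalRing.maximalIdeal V = Ideal.span {π} :=
    (IsDiscreteValuationRing.irreducible_iff_uniformizer π).1 hπ
  have h20 : (2 : V) ≠ 0 := by
    intro h
    apply h2d
    rw [h]
    exact Ideal.zero_mem _
  obtain ⟨e0, he0⟩ := IsDiscreteValuationRing.associated_pow_irreducible h20 hπ
  have h6 : e0 ≤ d := by
    by_contra h
    apply h2d
    rw [hm, Ideal.span_singleton_pow, Ideal.mem_span_singleton]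
    exact (pow_dvd_pow π (by omega)).trans he0.symm.dvd
  rw [hm, Ideal.span_singleton_pow, Ideal.mem_span_singleton] at h5
  have h7 : π ^ t ∣ π ^ (e0 * a) := by
    rw [pow_mul]
    exact h5.trans (he0.pow_pow).dvd
  have h8 : t ≤ e0 * a := (pow_dvd_pow_iff hπ.ne_zero hπ.not_isUnit).1 h7
  have h9 : e0 * a ≤ d * a := Nat.mul_le_mul_right _ h6
  have h10 : d * a < d * k := Nat.mul_lt_mul_of_pos_left ha (by omega)
  omega

/-- In a number field of degree at most `d`: if the power sums of the `h i` with exponents `m s`,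
`t ≤ s ≤ 2 t`, are natural numbers, and an integer combination of the `h i` is `2 ^ (-W)` with
`W ≥ t`, then the number of the `h i` is at least `2 ^ k` with `k = t / d`. -/
theorem pow_le_card (L : Type) [Field L] [NumberField L] (d : ℕ)
    (hd : Module.finrank ℚ L ≤ d) (m : ℕ) (hm1 : 1 ≤ m)
    (hm : ∀ f, 1 ≤ f → f ≤ d → 2 ^ f - 1 ∣ m) (t k : ℕ) (hk : d * k ≤ t)
    {n : Type*} [Fintype n] (h : n → L) (c : ℕ → ℕ)
    (hc : ∀ s, t ≤ s → s ≤ 2 * t → ∑ i, h i ^ (m * s) = (c s : L))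
    (τ : n → ℤ) (W : ℕ) (hW : t ≤ W) (hτ : ∑ i, (τ i : L) * h i = ((2 : L) ^ W)⁻¹) :
    2 ^ k ≤ Fintype.card n := by
  classical
  obtain ⟨V, i1, i2, i3, i4, i5, h2, h2d, hres⟩ := exists_dvr L d hd m hm
  have hd1 : 1 ≤ d := le_trans (Module.finrank_pos (R := ℚ) (M := L)) hd
  have h2L : ((2 : L) ^ W)⁻¹ ≠ 0 := inv_ne_zero (pow_ne_zero _ two_ne_zero)
  have hne : Nonempty n := by
    by_contra hh
    rw [not_nonempty_iff] at hh
    rw [Finset.univ_eq_empty, Finset.sum_empty] at hτ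
    exact h2L hτ.symm
  rcases Nat.eq_zero_or_pos k with hk0 | hk0
  · rw [hk0, pow_zero]
    exact Fintype.card_pos
  have ht : 1 ≤ t := le_trans (Nat.mul_pos hd1 hk0) hk
  by_contra hlt
  rw [not_le] at hlt
  obtain ⟨i0, hi0⟩ := Finite.exists_max fun i => ValuationRing.valuation V L (h i)
  have h0 : h i0 ≠ 0 := by
    intro hh
    have h1 : ∀ i, h i = 0 := by
      intro i
      have h3 := hi0 i
      rw [hh, map_zero] at h3
      exact (Valuation.zero_iff _).1 (le_antisymm h3 zero_le')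
    apply h2L
    rw [← hτ]
    exact Finset.sum_eq_zero fun i _ => by rw [h1, mul_zero]
  have hz : ∀ i, ∃ z : V, algebraMap V L z = h i / h i0 := by
    intro i
    rw [← ValuationRing.mem_integer_iff]
    change ValuationRing.valuation V L (h i / h i0) ≤ 1
    rw [map_div₀]
    exact div_le_one_of_le₀ (hi0 i) zero_le'
  choose z hz using hz
  have hinj := IsFractionRing.injective V L
  have hz0 : z i0 = 1 := by
    apply hinj
    rw [hz, div_self h0, map_one]
  set u : V := 2 ^ W * ∑ i, (τ i : V) * z i with hu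
  have hu1 : algebraMap V L u = (h i0)⁻¹ := by
    rw [hu, map_mul, map_pow, map_sum, map_ofNat]
    have h1 : ∀ i, algebraMap V L ((τ i : V) * z i) = ((τ i : L) * h i) * (h i0)⁻¹ := by
      intro i
      rw [map_mul, hz, map_intCast]
      field_simp
    rw [Finset.sum_congr rfl fun i _ => h1 i, ← Finset.sum_mul, hτ, ← mul_assoc,
      mul_inv_cancel₀ (pow_ne_zero _ two_ne_zero), one_mul]
  have hut : u ∈ IsLocalRing.maximalIdeal V ^ t := by
    apply Ideal.mul_mem_right
    exact Ideal.pow_le_pow_right hW (Ideal.pow_mem_pow h2 W)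
  have hmem : ∀ s, t ≤ s → s ≤ 2 * t → ∑ i, z i ^ (m * s) ∈ IsLocalRing.maximalIdeal V ^ t := by
    intro s hs1 hs2
    have h1 : ∑ i, z i ^ (m * s) = (c s : V) * u ^ (m * s) := by
      apply hinj
      rw [map_sum, map_mul, map_pow, hu1, map_natCast, ← hc s hs1 hs2, Finset.sum_mul]
      refine Finset.sum_congr rfl fun i _ => ?_
      rw [map_pow, hz, div_eq_mul_inv, mul_pow]
    rw [h1]
    apply Ideal.mul_mem_left
    exact Ideal.pow_mem_of_mem _ hut _ (Nat.mul_pos hm1 (lt_of_lt_of_le ht hs1))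
  have hcm := card_mem (IsLocalRing.maximalIdeal V) m t hm1 hres z hmem
  refine natCast_notMem V d t k hd1 hk h2 h2d _ ?_ ?_ hcm
  · apply Finset.card_ne_zero_of_mem (a := i0)
    rw [Finset.mem_filter]
    refine ⟨Finset.mem_univ _, ?_⟩
    rw [hz0]
    intro h1
    exact (IsLocalRing.maximalIdeal.isMaximal V).ne_top ((Ideal.eq_top_iff_one _).2 h1)
  · exact lt_of_le_of_lt (Finset.card_filter_le _ _) (by rwa [Finset.card_univ])

end Pool.Agent.H21.PA
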