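import Pool.Agent.H54.Bezout

/-!
Elimination of one variable.
-/

set_option autoImplicit false

open MvPolynomial

namespace Pool.Agent.H21.PA

/-- Gauss lemma: elimination over a principal ideal domain of coefficients. -/
private theorem elim_poly {K : Type*} [Field K] (P G : Polynomial (Polynomial K)) (hP : Prime P)
    (hG : ¬ P ∣ G) : ∃ (r : Polynomial K) (u v : Polynomial (Polynomial K)), r ≠ 0 ∧
      u * P + v * G = Polynomial.C r := by
  classical
  by_cases hd : P.natDegree = 0
  · have h1 : P = Polynomial.C (P.coeff 0) := Polynomial.eq_C_of_natDegree_eq_zero hd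
    refine ⟨P.coeff 0, 1, 0, ?_, ?_⟩
    · intro h0
      rw [h0, map_zero] at h1
      exact hP.ne_zero h1
    · rw [one_mul, zero_mul, add_zero]
      exact h1
  · have hprim : P.IsPrimitive := hP.irreducible.isPrimitive hd
    set L := FractionRing (Polynomial K) with hL
    have hirr : Irreducible (P.map (algebraMap (Polynomial K) L)) :=
      (hprim.irreducible_iff_irreducible_map_fraction_map (K := L)).1 hP.irreducible
    have hnd : ¬ P.map (algebraMap (Polynomial K) L) ∣ G.map (algebraMap (Polynomial K) L) := by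
      intro h
      exact hG (hprim.dvd_of_fraction_map_dvd_fraction_map (K := L) h)
    obtain ⟨a, b, hab⟩ := (hirr.coprime_iff_not_dvd).2 hnd
    obtain ⟨c, c0, hc⟩ := IsLocalization.integerNormalization_spec (nonZeroDivisors (Polynomial K)) a
    obtain ⟨d, d0, hd'⟩ := IsLocalization.integerNormalization_spec (nonZeroDivisors (Polynomial K)) b
    refine ⟨c * d, Polynomial.C d * IsLocalization.integerNormalization (nonZeroDivisors (Polynomial K)) a,
      Polynomial.C c * IsLocalization.integerNormalization (nonZeroDivisors (Polynomial K)) b,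
      mul_ne_zero (nonZeroDivisors.ne_zero c0) (nonZeroDivisors.ne_zero d0), ?_⟩
    apply Polynomial.map_injective (algebraMap (Polynomial K) L) (IsFractionRing.injective _ _)
    rw [Polynomial.map_add, Polynomial.map_mul, Polynomial.map_mul, Polynomial.map_mul,
      Polynomial.map_mul, hc, hd', Polynomial.map_C, Polynomial.map_C, Polynomial.map_C, map_mul,
      Polynomial.C_mul]
    rw [Algebra.smul_def, Algebra.smul_def, Polynomial.algebraMap_apply, Polynomial.algebraMap_apply]
    linear_combination (Polynomial.C (algebraMap (Polynomial K) L c) *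
      Polynomial.C (algebraMap (Polynomial K) L d)) * hab

/-- The last variable as coefficient variable. -/
private theorem exists_equiv {K : Type*} [Field K] (j : Fin 2) :
    ∃ Φ : MvPolynomial (Fin 2) K ≃ₐ[K] Polynomial (Polynomial K),
      Φ (X j) = Polynomial.C Polynomial.X := by
  let Ψ : MvPolynomial (Fin 2) K ≃ₐ[K] Polynomial (Polynomial K) :=
    (finSuccEquiv K 1).trans (Polynomial.mapAlgEquiv (MvPolynomial.uniqueAlgEquiv K (Fin 1)))
  have h1 : Ψ (X 1) = Polynomial.C Polynomial.X := by
    have h2 : (X 1 : MvPolynomial (Fin 2) K) = X (Fin.succ 0) := rfl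
    simp only [Ψ, AlgEquiv.trans_apply]
    rw [h2, finSuccEquiv_X_succ]
    simp
  by_cases hj : j = 1
  · exact ⟨Ψ, by rw [hj]; exact h1⟩
  · have hj0 : j = 0 := by omega
    refine ⟨(renameEquiv K (Equiv.swap (0 : Fin 2) 1)).trans Ψ, ?_⟩
    rw [AlgEquiv.trans_apply, hj0]
    simpa using h1

/-- If the prime `P` does not divide `G` then the ideal `(P, G)` contains a nonzero polynomial in
the `j`-th variable alone. -/
theorem exists_elim {K : Type*} [Field K] (P G : MvPolynomial (Fin 2) K) (hP : Prime P)
    (hG : ¬ P ∣ G) (j : Fin 2) :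
    ∃ (r : Polynomial K) (u v : MvPolynomial (Fin 2) K), r ≠ 0 ∧
      u * P + v * G = Polynomial.aeval (X j : MvPolynomial (Fin 2) K) r := by
  obtain ⟨Φ, hΦ⟩ := exists_equiv (K := K) j
  have hP' : Prime (Φ P) := (MulEquiv.prime_iff Φ.toMulEquiv).2 hP
  have hG' : ¬ Φ P ∣ Φ G := fun h => hG ((map_dvd_iff Φ).1 h)
  obtain ⟨r, u, v, hr, h⟩ := elim_poly (Φ P) (Φ G) hP' hG'
  refine ⟨r, Φ.symm u, Φ.symm v, hr, ?_⟩
  apply Φ.injective
  rw [map_add, map_mul, map_mul, AlgEquiv.apply_symm_apply, AlgEquiv.apply_symm_apply, h]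
  have h2 : Φ (Polynomial.aeval (X j : MvPolynomial (Fin 2) K) r) =
      Polynomial.aeval (Φ (X j)) r := by
    have := Polynomial.aeval_algHom_apply (Φ : MvPolynomial (Fin 2) K →ₐ[K] Polynomial (Polynomial K))
      (X j) r
    exact this.symm
  rw [h2, hΦ]
  have h3 := Polynomial.aeval_algHom_apply (Polynomial.CAlgHom : Polynomial K →ₐ[K] Polynomial (Polynomial K))
    Polynomial.X r
  rw [Polynomial.aeval_X_left_apply] at h3
  exact h3.symm

end Pool.Agent.H21.PA
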