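import Pool.Agent.H21.PA.Div
import Pool.Agent.H21.PA.Elim

/-!
Specialisation of the generic matrix to an integer matrix, and of the curve to a point over a
number field.
-/

set_option autoImplicit false

open MvPolynomial

namespace Pool.Agent.H21.PA

variable {n : Type*} [Fintype n]

omit [Fintype n] in
/-- A nonzero polynomial with rational coefficients is not zero at some integer point. -/
private theorem exists_int_point (A : RA n) (hA : A ≠ 0) :
    ∃ τ : Fin 2 × n → ℤ, eval (fun p => (τ p : ℚ)) A ≠ 0 := by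
  by_contra hcon
  push Not at hcon
  apply hA
  refine funext_set (fun _ => Set.range fun z : ℤ => (z : ℚ))
    (fun _ => Set.infinite_range_of_injective Int.cast_injective) ?_
  intro x hx
  have h1 : ∀ p, ∃ z : ℤ, (z : ℚ) = x p := fun p => hx p (Set.mem_univ p)
  choose τ hτ using h1
  have h2 := hcon τ
  have h3 : (fun p => (τ p : ℚ)) = x := funext hτ
  rw [h3] at h2
  rw [h2, map_zero]

/-- A prime factor vanishing at a given point. -/
private theorem exists_factor {K : Type*} [Field K] (P : MvPolynomial (Fin 2) K) (hP : P ≠ 0)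
    (z : Fin 2 → K) (hz : eval z P = 0) :
    ∃ P₂ : MvPolynomial (Fin 2) K, Prime P₂ ∧ P₂ ∣ P ∧ eval z P₂ = 0 := by
  classical
  obtain ⟨u, hu⟩ := UniqueFactorizationMonoid.factors_prod hP
  have h1 : eval z ((UniqueFactorizationMonoid.factors P).prod * u) = 0 := by rw [hu, hz]
  rw [map_mul] at h1
  have h2 : eval z (u : MvPolynomial (Fin 2) K) ≠ 0 := (u.isUnit.map (eval z)).ne_zero
  have h3 := (mul_eq_zero.mp h1).resolve_right h2
  rw [map_multiset_prod, Multiset.prod_eq_zero_iff, Multiset.mem_map] at h3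
  obtain ⟨q, hq, hq0⟩ := h3
  exact ⟨q, UniqueFactorizationMonoid.prime_of_factor q hq,
    UniqueFactorizationMonoid.dvd_of_mem_factors hq, hq0⟩

/-- The chain rule for a substitution in which only the variable `l` moves. -/
private theorem derivative_subst (l : Fin 2) (a : ℚ) (P : MvPolynomial (Fin 2) ℚ) :
    Polynomial.derivative (aeval (fun j => if j = l then Polynomial.X else Polynomial.C a) P) =
      aeval (fun j => if j = l then Polynomial.X else Polynomial.C a) (pderiv l P) := by
  induction P using MvPolynomial.induction_on with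
  | C s =>
    rw [pderiv_C, map_zero, aeval_C, Polynomial.algebraMap_eq, Polynomial.derivative_C]
  | add S T hS hT =>
    rw [map_add, map_add, hS, hT, map_add, map_add]
  | mul_X S i hS =>
    rw [map_mul, Polynomial.derivative_mul, hS, pderiv_mul, map_add, map_mul, map_mul, aeval_X]
    congr 1
    congr 1
    by_cases h : i = l
    · rw [if_pos h, h, pderiv_X_self, map_one, Polynomial.derivative_X]
    · rw [if_neg h, pderiv_X_of_ne h, map_zero, Polynomial.derivative_C]

/-- A large `W` such that `2 ^ (-W)` is not a root of a given polynomial. -/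
private theorem exists_W (ρ : Polynomial ℚ) (hρ : ρ ≠ 0) (W₀ : ℕ) :
    ∃ W : ℕ, W₀ ≤ W ∧ ρ.eval (((2 : ℚ) ^ W)⁻¹) ≠ 0 := by
  classical
  by_contra hcon
  push Not at hcon
  apply hρ
  apply Polynomial.eq_zero_of_infinite_isRoot
  have h1 : Function.Injective fun W : ℕ => ((2 : ℚ) ^ W)⁻¹ := by
    intro a b h
    have h2 : (2 : ℚ) ^ a = 2 ^ b := inv_injective h
    exact Nat.pow_right_injective (le_refl 2) (by exact_mod_cast h2)
  refine ((Set.Ici_infinite W₀).image h1.injOn).mono ?_
  rintro _ ⟨W, hW, rfl⟩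
  exact hcon W hW

omit [Fintype n] in
private theorem totalDegree_map_le' {R S : Type*} [CommSemiring R] [CommSemiring S] (f : R →+* S)
    (P : MvPolynomial (Fin 2) R) : (MvPolynomial.map f P).totalDegree ≤ P.totalDegree := by
  unfold totalDegree
  exact Finset.sup_mono (support_map_subset f P)

/-- From the relations modulo `P` to numbers with given power sums in a number field whose degree
is at most the degree of `P`. -/
theorem exists_spec (P : MvPolynomial (Fin 2) (RA n)) (e : ℕ) (hPe : P.totalDegree ≤ e)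
    (Q : n → MvPolynomial (Fin 2) (RA n)) (l l' : Fin 2) (hl : l ≠ l')
    (x : n → ℕ) (hx : eval (ptq x) P = 0) (hx' : eval (ptq x) (pderiv l P) ≠ 0)
    (a₀ : RA n) (R₀ : MvPolynomial (Fin 2) (RA n)) (ha₀ : a₀ ≠ 0)
    (h₀ : C a₀ * (∑ i, C (X (l', i)) * Q i + X l' * pderiv l P) = P * R₀)
    (S : Finset ℕ) (c : ℕ → ℕ) (a : ℕ → RA n) (R : ℕ → MvPolynomial (Fin 2) (RA n))
    (ha : ∀ s ∈ S, a s ≠ 0)
    (hS : ∀ s ∈ S, C (a s) * (∑ i, (-Q i) ^ s -
      (c s : MvPolynomial (Fin 2) (RA n)) * pderiv l P ^ s) = P * R s)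
    (W₀ : ℕ) :
    ∃ (L : Type) (_ : Field L) (_ : NumberField L) (h : n → L) (τ : n → ℤ) (W : ℕ),
      W₀ ≤ W ∧ Module.finrank ℚ L ≤ e ∧ (∀ s ∈ S, ∑ i, h i ^ s = (c s : L)) ∧
      ∑ i, (τ i : L) * h i = ((2 : L) ^ W)⁻¹ := by
  classical
  -- the integer point
  obtain ⟨τ, hτ⟩ := exists_int_point (eval (ptq x) (pderiv l P) * a₀ * ∏ s ∈ S, a s)
    (mul_ne_zero (mul_ne_zero hx' ha₀) (Finset.prod_ne_zero_iff.mpr ha))
  set φ : RA n →+* ℚ := eval (fun p => (τ p : ℚ)) with hφ
  rw [map_mul, map_mul, map_prod] at hτ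
  have hg : φ (eval (ptq x) (pderiv l P)) ≠ 0 := fun h => hτ (by rw [h, zero_mul, zero_mul])
  have hφ₀ : φ a₀ ≠ 0 := fun h => hτ (by rw [h, mul_zero, zero_mul])
  have hφS : ∀ s ∈ S, φ (a s) ≠ 0 := fun s hs h =>
    hτ (by rw [Finset.prod_eq_zero hs h, mul_zero])
  -- the specialised curve
  set P₁ : MvPolynomial (Fin 2) ℚ := MvPolynomial.map φ P with hP₁
  set z : Fin 2 → ℚ := fun j => φ (ptq x j) with hz
  have hev : ∀ F : MvPolynomial (Fin 2) (RA n),
      eval z (MvPolynomial.map φ F) = φ (eval (ptq x) F) := by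
    intro F
    have h : (eval z).comp (MvPolynomial.map φ) = φ.comp (eval (ptq x)) := by
      apply MvPolynomial.ringHom_ext
      · intro r
        simp
      · intro i
        simp [hz]
    exact RingHom.congr_fun h F
  have hz0 : eval z P₁ = 0 := by rw [hP₁, hev, hx, map_zero]
  have hpd : pderiv l P₁ = MvPolynomial.map φ (pderiv l P) := pderiv_map
  have hz1 : eval z (pderiv l P₁) ≠ 0 := by rw [hpd, hev]; exact hg
  have hP₁0 : P₁ ≠ 0 := by
    intro h
    rw [h, map_zero, map_zero] at hz1
    exact hz1 rfl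
  obtain ⟨P₂, hprime, ⟨T, hT⟩, hz2⟩ := exists_factor P₁ hP₁0 z hz0
  have hT0 : T ≠ 0 := by
    rintro rfl
    rw [mul_zero] at hT
    exact hP₁0 hT
  have hnd : ¬ P₂ ∣ pderiv l P₁ := by
    rintro ⟨U, hU⟩
    rw [hU, map_mul, hz2, zero_mul] at hz1
    exact hz1 rfl
  have hP₂l : pderiv l P₂ ≠ 0 := by
    intro h
    apply hnd
    rw [hT, pderiv_mul, h, zero_mul, zero_add]
    exact dvd_mul_right _ _
  obtain ⟨r, u, v, hr, huv⟩ := exists_elim P₂ (pderiv l P₁) hprime hnd l'
  -- a point where the derivative of P₂ is not zero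
  obtain ⟨y₀, hy₀⟩ : ∃ y : Fin 2 → ℚ, eval y (pderiv l P₂) ≠ 0 := by
    by_contra hcon
    push Not at hcon
    apply hP₂l
    apply MvPolynomial.funext
    intro y
    rw [hcon y, map_zero]
  set ρ : Polynomial ℚ := aeval (fun j => if j = l then Polynomial.C (y₀ l) else Polynomial.X)
    (pderiv l P₂) with hρ
  have hρe : ∀ t : ℚ, ρ.eval t = eval (fun j => if j = l then y₀ l else t) (pderiv l P₂) := by
    intro t
    have h : (Polynomial.evalRingHom t).comp
        (aeval (fun j => if j = l then Polynomial.C (y₀ l) else Polynomial.X) :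
          MvPolynomial (Fin 2) ℚ →ₐ[ℚ] Polynomial ℚ).toRingHom =
        eval (fun j => if j = l then y₀ l else t) := by
      apply MvPolynomial.ringHom_ext
      · intro r
        simp
      · intro i
        by_cases hi : i = l <;> simp [hi]
    exact RingHom.congr_fun h _
  have hρ0 : ρ ≠ 0 := by
    intro h
    have h1 := hρe (y₀ l')
    rw [h, Polynomial.eval_zero] at h1
    apply hy₀
    rw [h1]
    congr 1
    congr 1
    funext j
    by_cases hj : j = l
    · rw [if_pos hj, hj]
    · rw [if_neg hj]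
      congr 1
      omega
  obtain ⟨W, hW, hWr⟩ := exists_W (r * ρ) (mul_ne_zero hr hρ0) W₀
  set lam : ℚ := ((2 : ℚ) ^ W)⁻¹ with hlam
  rw [Polynomial.eval_mul] at hWr
  have hr1 : r.eval lam ≠ 0 := fun h => hWr (by rw [h, zero_mul])
  have hρ1 : ρ.eval lam ≠ 0 := fun h => hWr (by rw [h, mul_zero])
  -- the polynomial in one variable
  set p : Polynomial ℚ := aeval (fun j => if j = l then Polynomial.X else Polynomial.C lam) P₂
    with hp
  have hpe : ∀ (F : MvPolynomial (Fin 2) ℚ) (t : ℚ),
      (aeval (fun j => if j = l then Polynomial.X else Polynomial.C lam) F : Polynomial ℚ).eval t =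
        eval (fun j => if j = l then t else lam) F := by
    intro F t
    have h : (Polynomial.evalRingHom t).comp
        (aeval (fun j => if j = l then Polynomial.X else Polynomial.C lam) :
          MvPolynomial (Fin 2) ℚ →ₐ[ℚ] Polynomial ℚ).toRingHom =
        eval (fun j => if j = l then t else lam) := by
      apply MvPolynomial.ringHom_ext
      · intro r
        simp
      · intro i
        by_cases hi : i = l <;> simp [hi]
    exact RingHom.congr_fun h _
  have hpd0 : Polynomial.derivative p ≠ 0 := by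
    intro h
    rw [hp, derivative_subst] at h
    have h1 := hpe (pderiv l P₂) (y₀ l)
    rw [h, Polynomial.eval_zero] at h1
    apply hρ1
    rw [hρe lam]
    exact h1.symm
  have hpdeg : p.natDegree ≠ 0 := by
    intro h
    apply hpd0
    rw [Polynomial.eq_C_of_natDegree_eq_zero h, Polynomial.derivative_C]
  have hple : p.natDegree ≤ e := by
    have h1 : P₂.totalDegree ≤ e := by
      have h2 : P₁.totalDegree = P₂.totalDegree + T.totalDegree := by
        rw [hT, totalDegree_mul_of_isDomain hprime.ne_zero hT0]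
      have h3 : P₁.totalDegree ≤ P.totalDegree := totalDegree_map_le' φ P
      omega
    have h4 := aeval_natDegree_le P₂ h1
      (fun j => if j = l then (Polynomial.X : Polynomial ℚ) else Polynomial.C lam) (n := 1) (by
        intro j
        by_cases hj : j = l
        · simp [hj]
        · simp [hj])
    simpa using h4
  have hp0 : p ≠ 0 := by
    intro h
    rw [h] at hpdeg
    exact hpdeg Polynomial.natDegree_zero
  obtain ⟨f, hf, hfp⟩ := Polynomial.exists_irreducible_of_natDegree_ne_zero hpdeg
  have hfe : f.natDegree ≤ e := (Polynomial.natDegree_le_of_dvd hfp hp0).trans hple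
  have : Fact (Irreducible f) := ⟨hf⟩
  have hfin : FiniteDimensional ℚ (AdjoinRoot f) :=
    (AdjoinRoot.powerBasis hf.ne_zero).finite
  have hnf : NumberField (AdjoinRoot f) :=
    { to_charZero := charZero_of_injective_algebraMap (algebraMap ℚ (AdjoinRoot f)).injective
      to_finiteDimensional := hfin }
  have hrank : Module.finrank ℚ (AdjoinRoot f) = f.natDegree := by
    rw [(AdjoinRoot.powerBasis hf.ne_zero).finrank, AdjoinRoot.powerBasis_dim]
  set L := AdjoinRoot f with hL
  set y : L := AdjoinRoot.root f with hy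
  set w : Fin 2 → L := fun j => if j = l then y else algebraMap ℚ L lam with hw
  have hcomp : ∀ F : MvPolynomial (Fin 2) ℚ, Polynomial.aeval y
      (aeval (fun j => if j = l then Polynomial.X else Polynomial.C lam) F : Polynomial ℚ) =
        aeval w F := by
    intro F
    have h : (Polynomial.aeval y).comp
        (aeval (fun j => if j = l then Polynomial.X else Polynomial.C lam) :
          MvPolynomial (Fin 2) ℚ →ₐ[ℚ] Polynomial ℚ) = aeval w := by
      apply MvPolynomial.algHom_ext
      intro i
      by_cases hi : i = l <;> simp [hi, hw]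
    exact AlgHom.congr_fun h F
  have hw2 : aeval w P₂ = 0 := by
    rw [← hcomp P₂, ← hp]
    obtain ⟨q, hq⟩ := hfp
    rw [hq, map_mul]
    have : Polynomial.aeval y f = 0 := by
      rw [Polynomial.aeval_def, Subsingleton.elim (algebraMap ℚ L) (AdjoinRoot.of f)]
      exact AdjoinRoot.eval₂_root f
    rw [this, zero_mul]
  have hw1 : aeval w P₁ = 0 := by rw [hT, map_mul, hw2, zero_mul]
  have hwl' : w l' = algebraMap ℚ L lam := by
    rw [hw]
    simp only
    rw [if_neg (fun h => hl h.symm)]
  set d : L := aeval w (pderiv l P₁) with hd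
  have hd0 : d ≠ 0 := by
    intro h
    have h1 := congrArg (aeval w) huv
    rw [map_add, map_mul, map_mul, hw2, ← hd, h, mul_zero, mul_zero, add_zero] at h1
    have h2 : aeval w (Polynomial.aeval (X l' : MvPolynomial (Fin 2) ℚ) r) =
        algebraMap ℚ L (r.eval lam) := by
      rw [← Polynomial.aeval_algHom_apply, aeval_X, hwl', Polynomial.aeval_algebraMap_apply]
      simp
    rw [h2] at h1
    apply hr1
    apply (algebraMap ℚ L).injective
    rw [← h1, map_zero]
  -- the substitution
  set θ : MvPolynomial (Fin 2) (RA n) →+* L :=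
    (aeval w : MvPolynomial (Fin 2) ℚ →ₐ[ℚ] L).toRingHom.comp (MvPolynomial.map φ) with hθ
  have hθC : ∀ b : RA n, θ (C b) = algebraMap ℚ L (φ b) := by
    intro b
    simp [hθ]
  have hθX : θ (X l') = algebraMap ℚ L lam := by
    rw [← hwl']
    simp [hθ]
  have hθP : θ P = 0 := hw1
  have hθd : θ (pderiv l P) = d := by
    rw [hd, hpd]
    rfl
  refine ⟨L, inferInstance, hnf, fun i => -θ (Q i) / d, fun i => τ (l', i), W, hW, ?_, ?_, ?_⟩
  · rw [hrank]
    exact hfe
  · intro s hs
    have h1 := congrArg θ (hS s hs)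
    rw [map_mul, map_mul, hθP, zero_mul, hθC, map_sub, map_sum, map_mul, map_pow, map_natCast,
      hθd] at h1
    have h2 : algebraMap ℚ L (φ (a s)) ≠ 0 := by
      intro h
      apply hφS s hs
      apply (algebraMap ℚ L).injective
      rw [h, map_zero]
    have h3 := (mul_eq_zero.mp h1).resolve_left h2
    have h4 : ∑ i, (-θ (Q i) / d) ^ s = (∑ i, θ ((-Q i) ^ s)) / d ^ s := by
      rw [Finset.sum_div]
      refine Finset.sum_congr rfl fun i _ => ?_
      rw [div_pow, map_pow, map_neg]
    rw [h4, sub_eq_zero.mp h3, mul_div_assoc, div_self (pow_ne_zero s hd0), mul_one]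
  · have h1 := congrArg θ h₀
    rw [map_mul, map_mul, hθP, zero_mul, hθC, map_add, map_sum, map_mul, hθX, hθd] at h1
    have h2 : algebraMap ℚ L (φ a₀) ≠ 0 := by
      intro h
      apply hφ₀
      apply (algebraMap ℚ L).injective
      rw [h, map_zero]
    have h3 := (mul_eq_zero.mp h1).resolve_left h2
    have h4 : ∀ i, θ (C (X (l', i)) * Q i) = (τ (l', i) : L) * θ (Q i) := by
      intro i
      rw [map_mul, hθC, hφ, eval_X]
      simp
    rw [Finset.sum_congr rfl fun i _ => h4 i] at h3
    have h5 : ∑ i, (τ (l', i) : L) * (-θ (Q i) / d) = -(∑ i, (τ (l', i) : L) * θ (Q i)) / d := by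
      rw [← Finset.sum_neg_distrib, Finset.sum_div]
      refine Finset.sum_congr rfl fun i _ => ?_
      ring
    rw [h5, eq_neg_of_add_eq_zero_left h3, neg_neg, mul_div_assoc, div_self hd0, mul_one, hlam,
      map_inv₀, map_pow, map_ofNat]

end Pool.Agent.H21.PA
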