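import Pool.Agent.H21.PA.Coord
import Pool.Agent.H21.PA.Spec
import Pool.Agent.H21.PA.Nt

/-!
Points with prescribed power sums on a prime component.
-/

set_option autoImplicit false

open MvPolynomial

namespace Pool.Agent.H21.PA

variable {n : Type*} [Fintype n]

/-- Points with given power sums with the exponents `m s`, `t ≤ s ≤ 2 t`, on a prime component of
degree at most `d`, if `m` is divisible by all `2 ^ f - 1`, `f ≤ d`, and `2 ^ (t / d)` is larger
than the number of coordinates. -/
theorem card_le_curve (d m t k : ℕ) (hm1 : 1 ≤ m) (hm : ∀ f, 1 ≤ f → f ≤ d → 2 ^ f - 1 ∣ m)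
    (ht : 1 ≤ t) (hk : d * k ≤ t) (hk' : Fintype.card n < 2 ^ k) (c : ℕ → ℕ)
    (X : Finset (n → ℕ))
    (hX : ∀ x ∈ X, ∀ s, t ≤ s → s ≤ 2 * t → ∑ i, x i ^ (m * s) = c (m * s))
    (P : MvPolynomial (Fin 2) (RA n)) (hP : Prime (ext P)) (hd : P.totalDegree ≤ d)
    (hPX : ∀ x ∈ X, eval (ptq x) P = 0) : X.card ≤ 2 * m * t * P.totalDegree ^ 2 := by
  classical
  by_contra hcon
  push Not at hcon
  obtain ⟨l, hl⟩ := exists_pderiv_ne P hP
  obtain ⟨l', hl'⟩ : ∃ l' : Fin 2, l ≠ l' := ⟨1 - l, by fin_cases l <;> decide⟩
  obtain ⟨Q, hQd, hQ⟩ := exists_vel P l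
  have he := totalDegree_ne_zero P hP
  have hmt : 1 ≤ 2 * m * t := Nat.mul_pos (Nat.mul_pos two_pos hm1) ht
  have hcard : P.totalDegree * P.totalDegree < X.card := by
    refine lt_of_le_of_lt ?_ hcon
    rw [sq]
    exact Nat.le_mul_of_pos_left _ hmt
  -- a smooth point
  obtain ⟨x₀, hx₀, hx₀'⟩ : ∃ x ∈ X, eval (ptq x) (pderiv l P) ≠ 0 := by
    by_contra hcon2
    push Not at hcon2
    have h1 := card_singular P hP l hl X hPX hcon2
    have h2 : P.totalDegree * (P.totalDegree - 1) ≤ P.totalDegree * P.totalDegree :=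
      Nat.mul_le_mul_left _ (Nat.sub_le _ _)
    omega
  -- the coordinate
  obtain ⟨a₀, R₀, ha₀, hR₀⟩ := exists_clear P
    (∑ i, C (MvPolynomial.X (l', i)) * Q i + MvPolynomial.X l' * pderiv l P)
    (dvd_of_vanish P _ hP P.totalDegree
      (by
        refine (totalDegree_add _ _).trans (max_le ?_ ?_)
        · refine totalDegree_finsetSum_le fun i _ => ?_
          refine (totalDegree_mul _ _).trans ?_
          rw [totalDegree_C, zero_add]
          exact hQd i
        · refine (totalDegree_mul _ _).trans ?_
          have h1 := totalDegree_pderiv P l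
          rw [totalDegree_X]
          omega) X hPX
      (by
        intro x hx
        have h1 : ∀ i, eval (ptq x) (C (MvPolynomial.X (l', i)) * Q i) =
            -(MvPolynomial.X (l', i) * (x i : RA n)) * eval (ptq x) (pderiv l P) := by
          intro i
          rw [map_mul, eval_C, hQ x (hPX x hx) i]
          ring
        rw [map_add, map_sum, Finset.sum_congr rfl fun i _ => h1 i, ← Finset.sum_mul,
          Finset.sum_neg_distrib, map_mul, eval_X]
        unfold ptq
        ring) hcard)
  -- the power sums
  have hS : ∀ s, ∃ (a : RA n) (R : MvPolynomial (Fin 2) (RA n)),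
      s ∈ (Finset.Icc t (2 * t)).image (fun s => m * s) → a ≠ 0 ∧
        C a * (∑ i, (-Q i) ^ s -
          (c s : MvPolynomial (Fin 2) (RA n)) * pderiv l P ^ s) = P * R := by
    intro s
    by_cases hs : s ∈ (Finset.Icc t (2 * t)).image (fun s => m * s)
    · obtain ⟨s', hs', rfl⟩ := Finset.mem_image.mp hs
      rw [Finset.mem_Icc] at hs'
      have h1 : P.totalDegree * (P.totalDegree * (m * s')) < X.card := by
        refine lt_of_le_of_lt ?_ hcon
        calc P.totalDegree * (P.totalDegree * (m * s')) = m * s' * P.totalDegree ^ 2 := by ring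
          _ ≤ m * (2 * t) * P.totalDegree ^ 2 :=
            Nat.mul_le_mul_right _ (Nat.mul_le_mul_left _ hs'.2)
          _ = 2 * m * t * P.totalDegree ^ 2 := by ring
      obtain ⟨a, R, ha, hR⟩ := exists_clear P
        (∑ i, (-Q i) ^ (m * s') -
          (c (m * s') : MvPolynomial (Fin 2) (RA n)) * pderiv l P ^ (m * s'))
        (dvd_of_vanish P _ hP (P.totalDegree * (m * s'))
          (by
            refine (totalDegree_sub _ _).trans (max_le ?_ ?_)
            · refine totalDegree_finsetSum_le fun i _ => ?_
              refine (totalDegree_pow _ _).trans ?_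
              rw [totalDegree_neg, mul_comm]
              exact Nat.mul_le_mul_right _ (hQd i)
            · refine (totalDegree_mul _ _).trans ?_
              have h2 : ((c (m * s') : MvPolynomial (Fin 2) (RA n))).totalDegree = 0 := by
                rw [← map_natCast (C : RA n →+* _), totalDegree_C]
              rw [h2, zero_add]
              refine (totalDegree_pow _ _).trans ?_
              rw [mul_comm]
              exact Nat.mul_le_mul_right _ ((totalDegree_pderiv P l).trans (Nat.sub_le _ _)))
          X hPX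
          (by
            intro x hx
            have h2 : ∀ i, eval (ptq x) ((-Q i) ^ (m * s')) =
                (((x i ^ (m * s') : ℕ)) : RA n) * eval (ptq x) (pderiv l P) ^ (m * s') := by
              intro i
              rw [map_pow, map_neg, hQ x (hPX x hx) i, neg_neg, mul_pow]
              push_cast
              ring
            rw [map_sub, map_sum, Finset.sum_congr rfl fun i _ => h2 i, ← Finset.sum_mul,
              ← Nat.cast_sum, hX x hx s' hs'.1 hs'.2, map_mul, map_pow, map_natCast,
              sub_self]) h1)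
      exact ⟨a, R, fun _ => ⟨ha, hR⟩⟩
    · exact ⟨0, 0, fun h => absurd h hs⟩
  choose a R haR using hS
  obtain ⟨L, _, _, h, τ, W, hW, hL, hh, hτ⟩ := exists_spec P d hd Q l l' hl' x₀ (hPX x₀ hx₀)
    hx₀' a₀ R₀ ha₀ hR₀ ((Finset.Icc t (2 * t)).image (fun s => m * s)) c a R
    (fun s hs => (haR s hs).1) (fun s hs => (haR s hs).2) t
  have h1 := pow_le_card L d hL m hm1 hm t k hk h (fun s => c (m * s))
    (fun s h1 h2 => hh (m * s) (Finset.mem_image_of_mem _ (Finset.mem_Icc.mpr ⟨h1, h2⟩))) τ W hW hτ
  omega

end Pool.Agent.H21.PA
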