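import Pool.Agent.H21.PA.Div

/-!
From the irreducible components to all curves.
-/

set_option autoImplicit false

open MvPolynomial

namespace Pool.Agent.H21.PA

variable {n : Type*} [Fintype n]

omit [Fintype n] in
/-- a prime component with integral coefficients -/
private theorem split_off (P : MvPolynomial (Fin 2) (RA n)) (hP : P ≠ 0) (hd : P.totalDegree ≠ 0) :
    ∃ (a : RA n) (P1 G1 : MvPolynomial (Fin 2) (RA n)), a ≠ 0 ∧ Prime (ext P1) ∧ G1 ≠ 0 ∧
      C a * P = P1 * G1 ∧ P1.totalDegree + G1.totalDegree = P.totalDegree := by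
  have hE : ext P ≠ 0 := by
    intro h
    exact hP ((ext_eq_zero_iff P).1 h)
  have hu : ¬ IsUnit (ext P) := by
    intro h
    obtain ⟨Q, hQ⟩ := h.exists_right_inv
    have hQ0 : Q ≠ 0 := by
      rintro rfl
      rw [mul_zero] at hQ
      exact zero_ne_one hQ
    have h1 := totalDegree_mul_of_isDomain hE hQ0
    rw [hQ, totalDegree_one, totalDegree_ext] at h1
    omega
  obtain ⟨f, hf, g, hg⟩ := WfDvdMonoid.exists_irreducible_factor hu hE
  have hfp : Prime f := UniqueFactorizationMonoid.irreducible_iff_prime.1 hf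
  obtain ⟨a, P1, ha, hP1⟩ := exists_integral f
  obtain ⟨c, G1, hc, hG1⟩ := exists_integral g
  have hne : ∀ r : RA n, r ≠ 0 → algebraMap (RA n) (KA n) r ≠ 0 := by
    intro r hr h
    apply hr
    apply IsFractionRing.injective (RA n) (KA n)
    rw [h, map_zero]
  have hunit : IsUnit (C (algebraMap (RA n) (KA n) a) : MvPolynomial (Fin 2) (KA n)) :=
    IsUnit.map _ (isUnit_iff_ne_zero.2 (hne a ha))
  have hassoc : Associated f (ext P1) := by
    refine ⟨hunit.unit, ?_⟩
    rw [IsUnit.unit_spec, mul_comm, hP1]
  have hprime : Prime (ext P1) := hassoc.prime hfp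
  have hg0 : g ≠ 0 := by
    rintro rfl
    rw [mul_zero] at hg
    exact hE hg
  have hG10 : G1 ≠ 0 := by
    rintro rfl
    have h1 : ext (0 : MvPolynomial (Fin 2) (RA n)) = 0 := (ext_eq_zero_iff _).2 rfl
    rw [h1] at hG1
    rcases mul_eq_zero.1 hG1 with h | h
    · rw [C_eq_zero] at h
      exact hne c hc h
    · exact hg0 h
  have hmul : C (a * c) * P = P1 * G1 := by
    apply ext_injective
    have h1 : ext (C (a * c) * P) = C (algebraMap (RA n) (KA n) a) * C (algebraMap (RA n) (KA n) c) * ext P := by
      unfold ext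
      rw [map_mul, map_C, map_mul, C_mul]
    have h2 : ext (P1 * G1) = ext P1 * ext G1 := by
      unfold ext
      rw [map_mul]
    rw [h1, h2, ← hP1, ← hG1, hg]
    ring
  have hP10 : P1 ≠ 0 := by
    rintro rfl
    exact hprime.ne_zero ((ext_eq_zero_iff _).2 rfl)
  refine ⟨a * c, P1, G1, mul_ne_zero ha hc, hprime, hG10, hmul, ?_⟩
  have hC0 : (C (a * c) : MvPolynomial (Fin 2) (RA n)) ≠ 0 := by
    rw [Ne, C_eq_zero]
    exact mul_ne_zero ha hc
  have h3 := totalDegree_mul_of_isDomain hC0 hP
  have h4 := totalDegree_mul_of_isDomain hP10 hG10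
  rw [hmul, h4, totalDegree_C] at h3
  omega

/-- If every prime component of degree `e` has at most `b e ^ 2` points then every curve of
degree `e` has at most `b e ^ 2` points. -/
theorem card_le_of_prime (b E : ℕ) (X : Finset (n → ℕ))
    (hb : ∀ P : MvPolynomial (Fin 2) (RA n), Prime (ext P) → P.totalDegree ≤ E →
      ∀ X' ⊆ X, (∀ x ∈ X', eval (ptq x) P = 0) → X'.card ≤ b * P.totalDegree ^ 2)
    (P : MvPolynomial (Fin 2) (RA n)) (hP : P ≠ 0) (hPE : P.totalDegree ≤ E)
    (hX : ∀ x ∈ X, eval (ptq x) P = 0) : X.card ≤ b * P.totalDegree ^ 2 := by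
  classical
  have key : ∀ d : ℕ, ∀ P : MvPolynomial (Fin 2) (RA n), P ≠ 0 → P.totalDegree = d → d ≤ E →
      ∀ X' ⊆ X, (∀ x ∈ X', eval (ptq x) P = 0) → X'.card ≤ b * d ^ 2 := by
    intro d
    induction d using Nat.strong_induction_on with
    | _ d ih =>
      intro P hP hPd hdE X' hX' hv
      rcases Nat.eq_zero_or_pos d with hd | hd
      · have h0 : P.totalDegree = 0 := by rw [hPd, hd]
        rw [totalDegree_eq_zero_iff_eq_C] at h0
        have hempty : X' = ∅ := by
          rw [Finset.eq_empty_iff_forall_notMem]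
          intro x hx
          have h1 := hv x hx
          rw [h0, eval_C] at h1
          apply hP
          rw [h0, h1, C_0]
        rw [hempty, Finset.card_empty]
        exact Nat.zero_le _
      · obtain ⟨a, P1, G1, ha, hprime, hG0, hmul, hdeg⟩ := split_off P hP (by omega)
        have hp1 := totalDegree_ne_zero P1 hprime
        have hcover : X' ⊆ X'.filter (fun x => eval (ptq x) P1 = 0) ∪
            X'.filter (fun x => eval (ptq x) G1 = 0) := by
          intro x hx
          have h1 := congrArg (eval (ptq x)) hmul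
          rw [map_mul, map_mul, hv x hx, mul_zero] at h1
          rw [Finset.mem_union, Finset.mem_filter, Finset.mem_filter]
          rcases mul_eq_zero.1 h1.symm with h | h
          · exact Or.inl ⟨hx, h⟩
          · exact Or.inr ⟨hx, h⟩
        have h1 := hb P1 hprime (by omega) (X'.filter (fun x => eval (ptq x) P1 = 0))
          ((Finset.filter_subset _ _).trans hX') (fun x hx => (Finset.mem_filter.1 hx).2)
        have h2 := ih G1.totalDegree (by omega) G1 hG0 rfl (by omega)
          (X'.filter (fun x => eval (ptq x) G1 = 0))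
          ((Finset.filter_subset _ _).trans hX') (fun x hx => (Finset.mem_filter.1 hx).2)
        have h3 := (Finset.card_le_card hcover).trans (Finset.card_union_le _ _)
        have h4 : b * P1.totalDegree ^ 2 + b * G1.totalDegree ^ 2 ≤ b * d ^ 2 := by
          rw [← hPd, ← hdeg, ← Nat.mul_add]
          apply Nat.mul_le_mul_left
          have : (P1.totalDegree + G1.totalDegree) ^ 2 =
              P1.totalDegree ^ 2 + G1.totalDegree ^ 2 + 2 * (P1.totalDegree * G1.totalDegree) := by ring
          rw [this]
          exact Nat.le_add_right _ _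
        omega
  exact key _ P hP rfl hPE X (Finset.Subset.refl X) hX

end Pool.Agent.H21.PA
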