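import Pool.Agent.H21.PA.Box
import Pool.Agent.H21.PA.Fac
import Pool.Agent.H21.PA.Curve

/-!
The planar sets before the random deletion.
-/

set_option autoImplicit false

open MvPolynomial
open scoped Pointwise

namespace Pool.Agent.H21.PA

open Pool.Agent.H54 (exf mon poly gram psi pt)

/-- the multiplier of the exponents for curves of degree at most `d` -/
def mm (d : ℕ) : ℕ := ∏ f ∈ Finset.Icc 1 d, (2 ^ f - 1)

theorem mm_pos (d : ℕ) : 1 ≤ mm d := by
  unfold mm
  rw [Nat.one_le_iff_ne_zero, ← Nat.pos_iff_ne_zero]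
  apply Finset.prod_pos
  intro f hf
  rw [Finset.mem_Icc] at hf
  have h1 : 2 ^ 1 ≤ 2 ^ f := Nat.pow_le_pow_right two_pos hf.1
  omega

theorem dvd_mm (d f : ℕ) (h1 : 1 ≤ f) (h2 : f ≤ d) : 2 ^ f - 1 ∣ mm d :=
  Finset.dvd_prod_of_mem _ (Finset.mem_Icc.mpr ⟨h1, h2⟩)

/-- the exponents for curves of degree `d` -/
def Sd (k d : ℕ) : Finset ℕ := (Finset.Icc (d * k) (2 * (d * k))).image (fun s => mm d * s)

/-- all exponents -/
def SS (k D : ℕ) : Finset ℕ := (Finset.Icc 1 D).biUnion (Sd k)

theorem exists_base (N k D q : ℕ) (hk : N < 2 ^ k) (hk1 : 1 ≤ k) (hq : 1 ≤ q) :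
    ∃ A : Finset (ℝ × ℝ), q ^ N ≤ A.card * ∏ s ∈ SS k D, (N * q ^ s + 1) ∧
      (A + A).card ≤ (2 * q) ^ N ∧
      ∀ (d : ℕ) (P : MvPolynomial (Fin 2) ℝ), P ≠ 0 → P.totalDegree ≤ d → ∀ Z ⊆ A,
        (∀ p ∈ Z, eval ![p.1, p.2] P = 0) →
          Z.card ≤ q * d ^ 2 ∧ (d ≤ D → Z.card ≤ 2 * mm d * (d * k) * d ^ 2) := by
  classical
  obtain ⟨B, c, hBq, hBc, hBcard⟩ := exists_box q N (SS k D)
  obtain ⟨M, hinj, hgen⟩ := H54.exists_generic (B.image vec) B.card
  let π : (Fin N → ℕ) → ℝ × ℝ := fun x => (pt M (vec x) 0, pt M (vec x) 1)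
  have hπ : ∀ x, ![(π x).1, (π x).2] = pt M (vec x) := by
    intro x
    funext l
    fin_cases l <;> rfl
  have hπinj : Set.InjOn π (B : Set (Fin N → ℕ)) := by
    intro x hx y hy h
    apply vec_injective
    apply hinj _ (Finset.mem_image_of_mem _ hx) _ (Finset.mem_image_of_mem _ hy)
    rw [← hπ, ← hπ, h]
  have hAcard : (B.image π).card = B.card := Finset.card_image_of_injOn hπinj
  refine ⟨B.image π, ?_, ?_, ?_⟩
  · rw [hAcard]
    exact hBcard
  · let g : (Fin N → ℕ) → ℝ × ℝ := π
    have hsub : B.image π + B.image π ⊆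
        (Fintype.piFinset fun _ : Fin N => Finset.range (2 * q)).image g := by
      intro u hu
      obtain ⟨a, ha, b, hb, rfl⟩ := Finset.mem_add.mp hu
      obtain ⟨x, hx, rfl⟩ := Finset.mem_image.mp ha
      obtain ⟨y, hy, rfl⟩ := Finset.mem_image.mp hb
      refine Finset.mem_image.mpr ⟨fun i => x i + y i, ?_, ?_⟩
      · rw [Fintype.mem_piFinset]
        intro i
        rw [Finset.mem_range]
        have := hBq x hx i
        have := hBq y hy i
        omega
      · have hadd : ∀ l, pt M (vec (fun i => x i + y i)) l = pt M (vec x) l + pt M (vec y) l := by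
          intro l
          simp only [pt, vec, Algebra.algebraMap_self, RingHom.id_apply]
          rw [← Finset.sum_add_distrib]
          refine Finset.sum_congr rfl fun i _ => ?_
          push_cast
          ring
        exact Prod.ext (hadd 0) (hadd 1)
    refine (Finset.card_le_card hsub).trans (Finset.card_image_le.trans ?_)
    simp
  · intro d P hP hPd Z hZ hPZ
    obtain ⟨X, hXB, hXZ⟩ := Finset.subset_image_iff.mp hZ
    have hXinj : Set.InjOn π (X : Set (Fin N → ℕ)) := hπinj.mono (by exact_mod_cast hXB)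
    have hZX : Z.card = X.card := by
      rw [← hXZ]
      exact Finset.card_image_of_injOn hXinj
    rw [hZX]
    rcases Nat.eq_zero_or_pos d with rfl | hd0
    · have h1 : X = ∅ := by
        rw [Finset.eq_empty_iff_forall_notMem]
        intro x hx
        have h2 := hPZ (π x) (by rw [← hXZ]; exact Finset.mem_image_of_mem _ hx)
        have h3 : P.totalDegree = 0 := Nat.le_zero.mp hPd
        rw [totalDegree_eq_zero_iff_eq_C] at h3
        rw [h3, eval_C] at h2
        rw [h2, C_0] at h3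
        exact hP h3
      rw [h1]
      simp
    rcases lt_or_ge B.card d with hBd | hBd
    · have h1 : X.card ≤ d := (Finset.card_le_card hXB).trans hBd.le
      refine ⟨?_, fun _ => ?_⟩
      · refine h1.trans ?_
        have h2 : d * 1 ≤ d * d := Nat.mul_le_mul_left _ hd0
        calc d ≤ d ^ 2 := by rw [sq]; omega
          _ ≤ q * d ^ 2 := Nat.le_mul_of_pos_left _ hq
      · refine h1.trans ?_
        have h2 : d * 1 ≤ d * d := Nat.mul_le_mul_left _ hd0
        have h3 : 1 ≤ 2 * mm d * (d * k) :=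
          Nat.mul_pos (Nat.mul_pos two_pos (mm_pos d)) (Nat.mul_pos hd0 hk1)
        calc d ≤ d ^ 2 := by rw [sq]; omega
          _ ≤ 2 * mm d * (d * k) * d ^ 2 := Nat.le_mul_of_pos_left _ h3
    have hPX : ∀ x ∈ X, eval (pt M (vec x)) P = 0 := by
      intro x hx
      have h1 := hPZ (π x) (by rw [← hXZ]; exact Finset.mem_image_of_mem _ hx)
      rw [hπ] at h1
      exact h1
    obtain ⟨a, ha⟩ := H54.exists_poly d P hPd
    have hdet : (gram d (X.image vec) M).det = 0 := by
      apply H54.det_eq_zero_of_exists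
      refine ⟨a, ?_, ?_⟩
      · rintro rfl
        apply hP
        rw [ha]
        unfold poly
        simp
      · intro y hy
        obtain ⟨x, hx, rfl⟩ := Finset.mem_image.mp hy
        rw [← H54.eval_poly, ← ha]
        exact hPX x hx
    have hpsi := hgen d hBd (X.image vec) (Finset.image_subset_image hXB) hdet
    obtain ⟨R, hR0, hRd, hRX⟩ := exists_over d X (by convert hpsi)
    refine ⟨?_, fun hdD => ?_⟩
    · refine (card_le_of_prime q d X (fun P' hP' _ X' hX' hPX' =>
        card_le_coord q hq P' hP' X' (fun x hx => hBq x (hXB (hX' hx))) hPX') R hR0 hRd hRX).trans ?_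
      exact Nat.mul_le_mul_left _ (Nat.pow_le_pow_left hRd 2)
    · refine (card_le_of_prime (2 * mm d * (d * k)) d X (fun P' hP' hP'd X' hX' hPX' =>
        card_le_curve d (mm d) (d * k) k (mm_pos d) (dvd_mm d) (Nat.mul_pos hd0 hk1) le_rfl
          (by rw [Fintype.card_fin]; exact hk) c X' ?_ P' hP' hP'd hPX') R hR0 hRd hRX).trans ?_
      · intro x hx s hs1 hs2
        apply hBc x (hXB (hX' hx))
        unfold SS
        rw [Finset.mem_biUnion]
        exact ⟨d, Finset.mem_Icc.mpr ⟨hd0, hdD⟩,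
          Finset.mem_image_of_mem _ (Finset.mem_Icc.mpr ⟨hs1, hs2⟩)⟩
      · exact Nat.mul_le_mul_left _ (Nat.pow_le_pow_left hRd 2)

end Pool.Agent.H21.PA
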