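import Mathlib

/-!
Points of a box with prescribed power sums.
-/

set_option autoImplicit false

namespace Pool.Agent.H21.PA

/-- Some values of the power sums with exponents in `S` are popular on the box `{0, ..., q-1}^N`. -/
theorem exists_box (q N : ℕ) (S : Finset ℕ) : ∃ (B : Finset (Fin N → ℕ)) (c : ℕ → ℕ),
    (∀ x ∈ B, ∀ i, x i < q) ∧ (∀ x ∈ B, ∀ s ∈ S, ∑ i, x i ^ s = c s) ∧
    q ^ N ≤ B.card * ∏ s ∈ S, (N * q ^ s + 1) := by
  classical
  set P : Finset (Fin N → ℕ) := Fintype.piFinset fun _ : Fin N => Finset.range q with hP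
  set T : Finset ((s : ℕ) → s ∈ S → ℕ) := S.pi fun s => Finset.range (N * q ^ s + 1) with hT
  have hPc : P.card = q ^ N := by
    rw [hP, Fintype.card_piFinset]
    simp
  have hTc : T.card = ∏ s ∈ S, (N * q ^ s + 1) := by
    rw [hT, Finset.card_pi]
    simp
  have hTn : T.Nonempty := by
    rw [← Finset.card_pos, hTc]
    exact Finset.prod_pos fun s _ => Nat.succ_pos _
  let G : (Fin N → ℕ) → ((s : ℕ) → s ∈ S → ℕ) := fun x s _ => ∑ i, x i ^ s
  have hmap : ∀ x ∈ P, G x ∈ T := by
    intro x hx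
    rw [hP, Fintype.mem_piFinset] at hx
    rw [hT, Finset.mem_pi]
    intro s _
    rw [Finset.mem_range, Nat.lt_succ_iff]
    calc ∑ i, x i ^ s ≤ ∑ _i : Fin N, q ^ s := Finset.sum_le_sum fun i _ =>
          Nat.pow_le_pow_left (Finset.mem_range.1 (hx i)).le s
      _ = N * q ^ s := by simp
  obtain ⟨y, hy, hmax⟩ := Finset.exists_max_image T (fun y => (P.filter fun x => G x = y).card) hTn
  refine ⟨P.filter fun x => G x = y, fun s => if h : s ∈ S then y s h else 0, ?_, ?_, ?_⟩
  · intro x hx i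
    have hx1 := (Finset.mem_filter.1 hx).1
    rw [hP, Fintype.mem_piFinset] at hx1
    exact Finset.mem_range.1 (hx1 i)
  · intro x hx s hs
    have hx1 := (Finset.mem_filter.1 hx).2
    simp only [dif_pos hs]
    rw [← hx1]
  · rw [← hPc, ← hTc, Finset.card_eq_sum_card_fiberwise hmap, mul_comm]
    exact Finset.sum_le_card_nsmul T _ _ hmax

end Pool.Agent.H21.PA
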