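import Pool.Agent.H21.PA.Div

/-!
Points of a box on a prime component: the bound by the side of the box.
-/

set_option autoImplicit false

open MvPolynomial

namespace Pool.Agent.H21.PA

open Pool.Agent.H54 (exf mon poly)

variable {n : Type*} [Fintype n]

/-- The velocities along a component. -/
theorem exists_vel (P : MvPolynomial (Fin 2) (RA n)) (l : Fin 2) :
    ∃ Q : n → MvPolynomial (Fin 2) (RA n), (∀ i, (Q i).totalDegree ≤ P.totalDegree) ∧
      ∀ x : n → ℕ, eval (ptq x) P = 0 → ∀ i,
        eval (ptq x) (Q i) = -((x i : RA n) * eval (ptq x) (pderiv l P)) := by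
  classical
  obtain ⟨c, hc⟩ := H54.exists_poly P.totalDegree P le_rfl
  refine ⟨fun i => poly P.totalDegree fun p => pderiv (l, i) (c p),
    fun i => H54.totalDegree_poly _ _, fun x hx i => ?_⟩
  have h1 := velocity P.totalDegree c x l i (by rw [← hc]; exact hx)
  rw [← hc] at h1
  exact eq_neg_of_add_eq_zero_left h1

omit [Fintype n] in
theorem totalDegree_pderiv (P : MvPolynomial (Fin 2) (RA n)) (l : Fin 2) :
    (pderiv l P).totalDegree ≤ P.totalDegree - 1 := by
  rw [← totalDegree_ext, ← pderiv_ext, ← totalDegree_ext P]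
  exact H54.totalDegree_pderiv_le (ext P) l

/-- there are few points at which the derivative vanishes -/
theorem card_singular (P : MvPolynomial (Fin 2) (RA n)) (hP : Prime (ext P)) (l : Fin 2)
    (hl : pderiv l P ≠ 0) (X : Finset (n → ℕ)) (hPX : ∀ x ∈ X, eval (ptq x) P = 0)
    (hPX' : ∀ x ∈ X, eval (ptq x) (pderiv l P) = 0) :
    X.card ≤ P.totalDegree * (P.totalDegree - 1) := by
  by_contra hcon
  push Not at hcon
  apply not_dvd_pderiv P hP l hl
  exact dvd_of_vanish P _ hP (P.totalDegree - 1) (totalDegree_pderiv P l) X hPX hPX' hcon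

theorem card_le_coord (q : ℕ) (hq : 1 ≤ q) (P : MvPolynomial (Fin 2) (RA n))
    (hP : Prime (ext P)) (X : Finset (n → ℕ)) (hXq : ∀ x ∈ X, ∀ i, x i < q)
    (hPX : ∀ x ∈ X, eval (ptq x) P = 0) : X.card ≤ q * P.totalDegree ^ 2 := by
  classical
  by_contra hcon
  push Not at hcon
  obtain ⟨l, hl⟩ := exists_pderiv_ne P hP
  obtain ⟨Q, hQd, hQ⟩ := exists_vel P l
  have he := totalDegree_ne_zero P hP
  have hcard : P.totalDegree * P.totalDegree < X.card := by
    refine lt_of_le_of_lt ?_ hcon
    rw [sq]
    exact Nat.le_mul_of_pos_left _ hq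
  obtain ⟨i, hi⟩ : ∃ i, ∀ a : ℕ, ¬ ext P ∣ ext (Q i + (a : MvPolynomial (Fin 2) (RA n)) *
      pderiv l P) := by
    by_contra hcon2
    push Not at hcon2
    choose a ha using hcon2
    have h1 : ∀ x ∈ X, eval (ptq x) (pderiv l P) ≠ 0 → x = a := by
      intro x hx hx2
      funext i
      obtain ⟨b, R, hb, hR⟩ := exists_clear P _ (ha i)
      have h2 := congrArg (eval (ptq x)) hR
      rw [map_mul, map_mul, hPX x hx, zero_mul, eval_C, map_add, map_mul, hQ x (hPX x hx) i,
        map_natCast] at h2
      have h3 := (mul_eq_zero.mp h2).resolve_left hb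
      have h4 : ((a i : RA n) - (x i : RA n)) * eval (ptq x) (pderiv l P) = 0 := by
        rw [← h3]
        ring
      have h5 := (mul_eq_zero.mp h4).resolve_right hx2
      have h6 : (a i : RA n) = (x i : RA n) := sub_eq_zero.mp h5
      exact (Nat.cast_injective h6).symm
    have h2 : (X.filter fun x => ¬ eval (ptq x) (pderiv l P) = 0).card ≤ 1 := by
      rw [Finset.card_le_one]
      intro x hx y hy
      rw [Finset.mem_filter] at hx hy
      rw [h1 x hx.1 hx.2, h1 y hy.1 hy.2]
    have h3 := card_singular P hP l hl (X.filter fun x => eval (ptq x) (pderiv l P) = 0)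
      (fun x hx => hPX x (Finset.mem_filter.mp hx).1) (fun x hx => (Finset.mem_filter.mp hx).2)
    have h4 := Finset.card_filter_add_card_filter_not (s := X)
      (fun x => eval (ptq x) (pderiv l P) = 0)
    obtain ⟨k, hk⟩ : ∃ k, P.totalDegree = k + 1 := ⟨P.totalDegree - 1, by omega⟩
    rw [hk] at hcard h3
    have h5 : (k + 1) * (k + 1 - 1) + 1 ≤ (k + 1) * (k + 1) := by
      rw [Nat.add_sub_cancel]
      nlinarith
    omega
  have h1 : ∀ a ∈ Finset.range q, (X.filter fun x => x i = a).card ≤ P.totalDegree ^ 2 := by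
    intro a _
    by_contra hcon2
    push Not at hcon2
    apply hi a
    refine dvd_of_vanish P _ hP P.totalDegree ?_ (X.filter fun x => x i = a)
      (fun x hx => hPX x (Finset.mem_filter.mp hx).1) ?_ (by rwa [← sq])
    · refine (totalDegree_add _ _).trans (max_le (hQd i) ?_)
      refine (totalDegree_mul _ _).trans ?_
      have h2 : ((a : MvPolynomial (Fin 2) (RA n))).totalDegree = 0 := by
        rw [← map_natCast (C : RA n →+* _), totalDegree_C]
      rw [h2, zero_add]
      exact (totalDegree_pderiv P l).trans (Nat.sub_le _ _)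
    · intro x hx
      rw [Finset.mem_filter] at hx
      rw [map_add, map_mul, hQ x (hPX x hx.1) i, map_natCast, hx.2]
      ring
  have h2 : X.card ≤ ∑ a ∈ Finset.range q, (X.filter fun x => x i = a).card := by
    rw [← Finset.card_eq_sum_card_fiberwise]
    intro x hx
    exact Finset.mem_coe.mpr (Finset.mem_range.mpr (hXq x hx i))
  have h3 := Finset.sum_le_card_nsmul _ _ _ h1
  rw [Finset.card_range, smul_eq_mul] at h3
  omega

end Pool.Agent.H21.PA
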