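import Pool.Agent.H21.PA.Vel
import Pool.Agent.H54.Lift

/-!
Divisibility over the field of rational functions in the matrix entries.
-/

set_option autoImplicit false

open MvPolynomial

namespace Pool.Agent.H21.PA

open Pool.Agent.H54 (exf mon poly)

variable {n : Type*} [Fintype n]

/-- the field of rational functions in the entries of the generic matrix -/
abbrev KA (n : Type*) : Type _ := FractionRing (RA n)

/-- extension of the coefficients to the field of rational functions -/
noncomputable def ext (P : MvPolynomial (Fin 2) (RA n)) : MvPolynomial (Fin 2) (KA n) :=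
  MvPolynomial.map (algebraMap (RA n) (KA n)) P

omit [Fintype n] in
theorem ext_injective : Function.Injective (ext : MvPolynomial (Fin 2) (RA n) → _) :=
  MvPolynomial.map_injective _ (IsFractionRing.injective (RA n) (KA n))

omit [Fintype n] in
theorem totalDegree_ext (P : MvPolynomial (Fin 2) (RA n)) :
    (ext P).totalDegree = P.totalDegree := by
  unfold totalDegree ext
  rw [support_map_of_injective _ (IsFractionRing.injective (RA n) (KA n))]

omit [Fintype n] in
theorem ext_eq_zero_iff (P : MvPolynomial (Fin 2) (RA n)) : ext P = 0 ↔ P = 0 := by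
  constructor
  · intro h
    apply ext_injective
    rw [h]
    exact (map_zero _).symm
  · rintro rfl
    exact map_zero _

/-- the image of a point over the field of rational functions -/
noncomputable def ptK (x : n → ℕ) : Fin 2 → KA n := fun l => algebraMap (RA n) (KA n) (ptq x l)

omit [Fintype n] in
theorem eval_ext' (u : Fin 2 → RA n) (P : MvPolynomial (Fin 2) (RA n)) :
    eval (fun l => algebraMap (RA n) (KA n) (u l)) (ext P) =
      algebraMap (RA n) (KA n) (eval u P) := by
  have h : (eval (fun l => algebraMap (RA n) (KA n) (u l))).comp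
      (MvPolynomial.map (algebraMap (RA n) (KA n))) =
      (algebraMap (RA n) (KA n)).comp (eval u) := by
    apply MvPolynomial.ringHom_ext
    · intro r
      simp
    · intro i
      simp
  exact RingHom.congr_fun h P

theorem eval_ext (x : n → ℕ) (P : MvPolynomial (Fin 2) (RA n)) :
    eval (ptK x) (ext P) = algebraMap (RA n) (KA n) (eval (ptq x) P) := eval_ext' _ _

theorem ptq_injective : Function.Injective (ptq : (n → ℕ) → (Fin 2 → RA n)) := by
  classical
  intro x y h
  funext i
  have h1 := congrArg (eval (fun a : Fin 2 × n => if a = (0, i) then (1 : ℚ) else 0))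
    (congrFun h 0)
  unfold ptq at h1
  simp only [map_sum, map_mul, eval_X, map_natCast, Prod.mk.injEq, true_and] at h1
  rw [Finset.sum_eq_single i, Finset.sum_eq_single i] at h1
  · simpa using h1
  · intro b _ hb
    simp [hb]
  · simp
  · intro b _ hb
    simp [hb]
  · simp

theorem ptK_injective : Function.Injective (ptK : (n → ℕ) → (Fin 2 → KA n)) := by
  intro x y h
  apply ptq_injective
  funext l
  exact IsFractionRing.injective (RA n) (KA n) (congrFun h l)

/-- Bezout: a polynomial of small degree vanishing at many points is a multiple. -/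
theorem dvd_of_vanish (P G : MvPolynomial (Fin 2) (RA n)) (hP : Prime (ext P)) (g : ℕ)
    (hG : G.totalDegree ≤ g) (X : Finset (n → ℕ)) (hPX : ∀ x ∈ X, eval (ptq x) P = 0)
    (hGX : ∀ x ∈ X, eval (ptq x) G = 0) (hcard : P.totalDegree * g < X.card) :
    ext P ∣ ext G := by
  classical
  by_contra hnd
  have h1 := H54.bezout (ext P) (ext G) hP hnd g (by rw [totalDegree_ext]; exact hG)
    (X.image ptK)
    (by
      intro z hz
      obtain ⟨x, hx, rfl⟩ := Finset.mem_image.mp hz
      rw [eval_ext, hPX x hx, map_zero])
    (by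
      intro z hz
      obtain ⟨x, hx, rfl⟩ := Finset.mem_image.mp hz
      rw [eval_ext, hGX x hx, map_zero])
  rw [Finset.card_image_of_injective _ ptK_injective, totalDegree_ext] at h1
  omega

omit [Fintype n] in
/-- common denominators -/
theorem exists_integral (S : MvPolynomial (Fin 2) (KA n)) :
    ∃ (a : RA n) (R : MvPolynomial (Fin 2) (RA n)), a ≠ 0 ∧
      C (algebraMap (RA n) (KA n) a) * S = ext R := by
  induction S using MvPolynomial.induction_on with
  | C s =>
    obtain ⟨r, a, ha, hs⟩ := IsFractionRing.div_surjective (A := RA n) s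
    have ha0 : a ≠ 0 := nonZeroDivisors.ne_zero ha
    have ha1 : algebraMap (RA n) (KA n) a ≠ 0 := by
      intro h
      apply ha0
      apply IsFractionRing.injective (RA n) (KA n)
      rw [h, map_zero]
    refine ⟨a, C r, ha0, ?_⟩
    unfold ext
    rw [map_C, ← C_mul, ← hs]
    congr 1
    field_simp
  | add S T hS hT =>
    obtain ⟨a, R, ha, hR⟩ := hS
    obtain ⟨b, Q, hb, hQ⟩ := hT
    refine ⟨a * b, C b * R + C a * Q, mul_ne_zero ha hb, ?_⟩
    unfold ext at hR hQ ⊢
    have e1 : C (algebraMap (RA n) (KA n) (a * b)) =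
        C (algebraMap (RA n) (KA n) a) * (C (algebraMap (RA n) (KA n) b) :
          MvPolynomial (Fin 2) (KA n)) := by
      rw [← C_mul, ← map_mul]
    rw [e1, map_add, map_mul, map_mul, map_C, map_C, ← hR, ← hQ]
    ring
  | mul_X S i hS =>
    obtain ⟨a, R, ha, hR⟩ := hS
    refine ⟨a, R * X i, ha, ?_⟩
    unfold ext at hR ⊢
    rw [map_mul, map_X, ← hR]
    ring

omit [Fintype n] in
/-- divisibility over the field of rational functions without denominators -/
theorem exists_clear (P G : MvPolynomial (Fin 2) (RA n)) (h : ext P ∣ ext G) :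
    ∃ (a : RA n) (R : MvPolynomial (Fin 2) (RA n)), a ≠ 0 ∧ C a * G = P * R := by
  obtain ⟨S, hS⟩ := h
  obtain ⟨a, R, ha, hR⟩ := exists_integral S
  refine ⟨a, R, ha, ?_⟩
  apply ext_injective
  have h1 : ext (C a * G) = C (algebraMap (RA n) (KA n) a) * ext G := by
    unfold ext
    rw [map_mul, map_C]
  have h2 : ext (P * R) = ext P * ext R := by
    unfold ext
    rw [map_mul]
  rw [h1, h2, hS, ← hR]
  ring

omit [Fintype n] in
theorem totalDegree_ne_zero (P : MvPolynomial (Fin 2) (RA n)) (hP : Prime (ext P)) :
    P.totalDegree ≠ 0 := by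
  intro h0
  rw [← totalDegree_ext, totalDegree_eq_zero_iff_eq_C] at h0
  apply hP.not_isUnit
  rw [h0]
  apply IsUnit.map
  rw [isUnit_iff_ne_zero]
  intro h1
  apply hP.ne_zero
  rw [h0, h1, C_0]

omit [Fintype n] in
/-- some partial derivative is not zero -/
theorem exists_pderiv_ne (P : MvPolynomial (Fin 2) (RA n)) (hP : Prime (ext P)) :
    ∃ l, pderiv l P ≠ 0 := by
  classical
  by_contra hcon
  push Not at hcon
  apply totalDegree_ne_zero P hP
  rw [totalDegree_eq_zero_iff_eq_C]
  ext1 m
  rw [coeff_C]
  split_ifs with h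
  · rw [← h]
  · obtain ⟨j, hj⟩ : ∃ j, m j ≠ 0 := by
      by_contra hc
      push Not at hc
      exact h (Finsupp.ext fun j => (hc j).symm)
    have h1 : coeff (m - Finsupp.single j 1) (pderiv j P) = 0 := by rw [hcon j, coeff_zero]
    rw [coeff_pderiv] at h1
    have h2 : m - Finsupp.single j 1 + Finsupp.single j 1 = m := by
      apply tsub_add_cancel_of_le
      rw [Finsupp.single_le_iff]
      omega
    rw [h2] at h1
    refine (mul_eq_zero.mp h1).resolve_right ?_
    exact Nat.cast_add_one_ne_zero _

omit [Fintype n] in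
theorem pderiv_ext (P : MvPolynomial (Fin 2) (RA n)) (l : Fin 2) :
    pderiv l (ext P) = ext (pderiv l P) := by
  unfold ext
  exact pderiv_map

omit [Fintype n] in
theorem not_dvd_pderiv (P : MvPolynomial (Fin 2) (RA n)) (hP : Prime (ext P)) (l : Fin 2)
    (hl : pderiv l P ≠ 0) : ¬ ext P ∣ ext (pderiv l P) := by
  rintro ⟨A, hA⟩
  have hA0 : A ≠ 0 := by
    rintro rfl
    rw [mul_zero, ext_eq_zero_iff] at hA
    exact hl hA
  have h1 := H54.totalDegree_pderiv_le (ext P) l
  rw [pderiv_ext, hA, totalDegree_mul_of_isDomain hP.ne_zero hA0, totalDegree_ext] at h1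
  have h2 := totalDegree_ne_zero P hP
  omega

end Pool.Agent.H21.PA
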