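import Pool.Agent.H54.Gram

/-!
Points of `ℕ ^ n` whose image under the generic matrix lies on a plane curve: rational
coefficients.
-/

set_option autoImplicit false

open MvPolynomial

namespace Pool.Agent.H21.PA

open Pool.Agent.H54 (exf mon poly gram psi pt)

variable {n : Type*} [Fintype n]

/-- polynomials in the entries of the generic `2 × n` matrix -/
abbrev RA (n : Type*) : Type _ := MvPolynomial (Fin 2 × n) ℚ

/-- the image of a point under the generic matrix -/
noncomputable def ptq (x : n → ℕ) : Fin 2 → RA n := fun l => ∑ i, X (l, i) * (x i : RA n)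

/-- the point as a real vector -/
def vec (x : n → ℕ) : n → ℝ := fun i => (x i : ℝ)

omit [Fintype n] in
theorem vec_injective : Function.Injective (vec : (n → ℕ) → (n → ℝ)) := by
  intro x y h
  funext i
  exact Nat.cast_injective (congrFun h i)

/-- Gram matrix with rational coefficients -/
noncomputable def gramQ (e : ℕ) (X : Finset (n → ℕ)) : Matrix (exf e) (exf e) (RA n) :=
  fun p q => ∑ x ∈ X, mon p.1 (ptq x) * mon q.1 (ptq x)

theorem map_ptq (x : n → ℕ) (l : Fin 2) :
    MvPolynomial.map (algebraMap ℚ ℝ) (ptq x l) =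
      pt (fun a => (X a : MvPolynomial (Fin 2 × n) ℝ)) (vec x) l := by
  simp [ptq, pt, vec]

theorem map_mon_ptq (p : ℕ × ℕ) (x : n → ℕ) :
    MvPolynomial.map (algebraMap ℚ ℝ) (mon p (ptq x)) =
      mon p (pt (fun a => (X a : MvPolynomial (Fin 2 × n) ℝ)) (vec x)) := by
  rw [H54.map_mon]
  congr 1
  funext l
  exact map_ptq x l

omit [Fintype n] in
theorem sqZero_rat {α : Type*} (s : Finset α) (f : α → RA n)
    (h : ∑ i ∈ s, f i ^ 2 = 0) : ∀ i ∈ s, f i = 0 := by
  intro i hi
  apply MvPolynomial.funext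
  intro t
  rw [map_zero]
  have h1 := congrArg (eval t) h
  rw [map_sum, map_zero] at h1
  have h2 := (Finset.sum_eq_zero_iff_of_nonneg (fun i _ => by
    rw [map_pow]
    exact sq_nonneg _)).mp h1 i hi
  rw [map_pow] at h2
  exact pow_eq_zero_iff two_ne_zero |>.mp h2

theorem exists_over (e : ℕ) (X : Finset (n → ℕ))
    (hpsi : open Classical in psi e (X.image vec) = 0) :
    ∃ P : MvPolynomial (Fin 2) (RA n), P ≠ 0 ∧ P.totalDegree ≤ e ∧
      ∀ x ∈ X, eval (ptq x) P = 0 := by
  classical
  have hdet : (gramQ e X).det = 0 := by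
    apply MvPolynomial.map_injective (algebraMap ℚ ℝ) (algebraMap ℚ ℝ).injective
    rw [map_zero, RingHom.map_det, ← hpsi]
    unfold psi
    congr 1
    ext p q : 2
    simp only [RingHom.mapMatrix_apply, Matrix.map_apply, gramQ, gram, map_sum, map_mul,
      map_mon_ptq]
    rw [Finset.sum_image (fun x _ y _ h => vec_injective h)]
  obtain ⟨c, hc, hc2⟩ := Matrix.exists_mulVec_eq_zero_iff.mpr hdet
  have h1 : ∑ x ∈ X, (∑ p, c p * mon p.1 (ptq x)) ^ 2 = 0 := by
    have h2 : ∑ p, c p * ((gramQ e X).mulVec c) p =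
        ∑ x ∈ X, (∑ p, c p * mon p.1 (ptq x)) ^ 2 := by
      have h3 : ∀ p, ((gramQ e X).mulVec c) p =
          ∑ x ∈ X, mon p.1 (ptq x) * ∑ q, c q * mon q.1 (ptq x) := by
        intro p
        simp only [Matrix.mulVec, dotProduct, gramQ, Finset.sum_mul, Finset.mul_sum]
        rw [Finset.sum_comm]
        refine Finset.sum_congr rfl fun x _ => Finset.sum_congr rfl fun q _ => by ring
      simp only [h3, Finset.mul_sum]
      rw [Finset.sum_comm]
      refine Finset.sum_congr rfl fun x _ => ?_
      rw [sq, Finset.sum_mul]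
      refine Finset.sum_congr rfl fun p _ => ?_
      rw [Finset.mul_sum]
      refine Finset.sum_congr rfl fun q _ => by ring
    rw [← h2, hc2]
    simp
  refine ⟨poly e c, H54.poly_ne_zero e c hc, H54.totalDegree_poly e c, fun x hx => ?_⟩
  rw [H54.eval_poly]
  exact sqZero_rat X _ h1 x hx

end Pool.Agent.H21.PA
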