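import Pool.Agent.H21.FE.Del
import Pool.Agent.H21.FE.Count

/-!
Random deletion of points of a planar set.
-/

set_option autoImplicit false

open MvPolynomial

namespace Pool.Agent.H21.PA

open Pool.Agent.H21.FE (bad card_bad_le exists_subset)

theorem exists_delete (B : Finset (ℝ × ℝ)) (p : ℝ) (h0 : 0 ≤ p) (h1 : p ≤ 1) (n : ℕ)
    (m T : ℕ → ℕ)
    (hT : ∀ d ≤ n, ∀ P : MvPolynomial (Fin 2) ℝ, P ≠ 0 → P.totalDegree ≤ d → ∀ Z ⊆ B,
      (∀ q ∈ Z, eval ![q.1, q.2] P = 0) → Z.card ≤ T d) :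
    ∃ A ⊆ B, p * B.card / 2 ≤ A.card ∧
      ∀ d ≤ n, 2 * ((n : ℝ) + 1) * ((B.card : ℝ) + 1) ^ (d * (d + 3) / 2) *
          (T d : ℝ) ^ (m d + 1) * p ^ m d ≤ (B.card : ℝ) →
        ∀ P : MvPolynomial (Fin 2) ℝ, P ≠ 0 → P.totalDegree ≤ d → ∀ Z ⊆ A,
          (∀ q ∈ Z, eval ![q.1, q.2] P = 0) → Z.card ≤ m d := by
  classical
  let cond : ℕ → Prop := fun d =>
    2 * ((n : ℝ) + 1) * ((B.card : ℝ) + 1) ^ (d * (d + 3) / 2) *
      (T d : ℝ) ^ (m d + 1) * p ^ m d ≤ (B.card : ℝ)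
  let I : Finset ℕ := (Finset.range (n + 1)).filter cond
  have hsum : ∑ d ∈ I, ((bad B d (m d)).card : ℝ) * p ^ (m d + 1) ≤ p * B.card / 2 := by
    have h2 : ∀ d ∈ I, ((bad B d (m d)).card : ℝ) * p ^ (m d + 1) ≤
        p * (B.card / (2 * ((n : ℝ) + 1))) := by
      intro d hd
      rw [Finset.mem_filter, Finset.mem_range] at hd
      have h3 : ((bad B d (m d)).card : ℝ) ≤
          ((B.card : ℝ) + 1) ^ (d * (d + 3) / 2) * (T d : ℝ) ^ (m d + 1) := by
        have h4 := card_bad_le B d (m d) _ (hT d (by omega))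
        exact_mod_cast h4
      have h4 : 2 * ((n : ℝ) + 1) * ((B.card : ℝ) + 1) ^ (d * (d + 3) / 2) *
          (T d : ℝ) ^ (m d + 1) * p ^ m d ≤ (B.card : ℝ) := hd.2
      have h6 : 0 < 2 * ((n : ℝ) + 1) := by positivity
      rw [pow_succ, mul_comm p, ← mul_assoc]
      apply mul_le_mul_of_nonneg_right _ h0
      rw [le_div_iff₀ h6]
      calc ((bad B d (m d)).card : ℝ) * p ^ m d * (2 * ((n : ℝ) + 1))
          ≤ (((B.card : ℝ) + 1) ^ (d * (d + 3) / 2) * (T d : ℝ) ^ (m d + 1)) * p ^ m d *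
            (2 * ((n : ℝ) + 1)) := by
            apply mul_le_mul_of_nonneg_right _ h6.le
            exact mul_le_mul_of_nonneg_right h3 (pow_nonneg h0 _)
        _ = _ := by ring
        _ ≤ _ := h4
    refine (Finset.sum_le_card_nsmul _ _ _ h2).trans ?_
    rw [nsmul_eq_mul]
    have h3 : (I.card : ℝ) ≤ (n : ℝ) + 1 := by
      have h4 : I.card ≤ n + 1 := (Finset.card_filter_le _ _).trans (by simp)
      exact_mod_cast h4
    have h4 : 0 ≤ p * ((B.card : ℝ) / (2 * ((n : ℝ) + 1))) := by positivity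
    refine (mul_le_mul_of_nonneg_right h3 h4).trans (le_of_eq ?_)
    have h5 : (n : ℝ) + 1 ≠ 0 := by positivity
    field_simp
  obtain ⟨A, hAB, hAcard, hA⟩ := exists_subset B p h0 h1 I (fun d => bad B d (m d)) m
    (by
      intro d _ X hX
      unfold bad at hX
      rw [Finset.mem_filter, Finset.mem_powersetCard] at hX
      exact hX.1) hsum
  refine ⟨A, hAB, hAcard, ?_⟩
  intro d hd hcond P hP0 hPd Z hZ hPZ
  by_contra hcon
  push Not at hcon
  obtain ⟨X, hX1, hX2⟩ := Finset.exists_subset_card_eq (Nat.succ_le_of_lt hcon)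
  apply hA d (Finset.mem_filter.mpr ⟨Finset.mem_range.mpr (by omega), hcond⟩) X _ (hX1.trans hZ)
  unfold bad
  rw [Finset.mem_filter, Finset.mem_powersetCard]
  exact ⟨⟨(hX1.trans hZ).trans hAB, hX2⟩, P, hP0, hPd, fun q hq => hPZ q (hX1 hq)⟩

end Pool.Agent.H21.PA
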