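import Pool.Agent.H21.PA.Base
import Pool.Agent.H21.PA.Rand

/-!
The sequence of planar sets for fixed parameters.
-/

set_option autoImplicit false

open MvPolynomial Filter
open scoped Pointwise

namespace Pool.Agent.H21.PA

/-- the bound from the random deletion -/
def md (N a d : ℕ) : ℕ := ((N + 1) * (d * (d + 3) / 2) + 4) / (a - 2) + 1

theorem prod_le (N k D q : ℕ) (hq : (N + 1) ^ (SS k D).card ≤ q) (hq1 : 1 ≤ q) :
    ∏ s ∈ SS k D, (N * q ^ s + 1) ≤ q ^ (∑ s ∈ SS k D, s + 1) := by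
  have h1 : ∏ s ∈ SS k D, (N * q ^ s + 1) ≤ ∏ s ∈ SS k D, ((N + 1) * q ^ s) := by
    apply Finset.prod_le_prod'
    intro s _
    have : 1 ≤ q ^ s := Nat.one_le_pow _ _ hq1
    rw [add_mul, one_mul]
    omega
  refine h1.trans ?_
  rw [Finset.prod_mul_distrib, Finset.prod_const, Finset.prod_pow_eq_pow_sum, pow_succ, mul_comm]
  exact Nat.mul_le_mul_left _ hq

/-- one finite set -/
theorem exists_stage (N k D a q : ℕ) (hk : N < 2 ^ k) (hk1 : 1 ≤ k)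
    (hN : ∑ s ∈ SS k D, s + 1 ≤ N) (hq : (N + 1) ^ (SS k D).card ≤ q) (hq1 : 1 ≤ q) :
    ∃ A : Finset (ℝ × ℝ), (q : ℝ) ^ (N - (∑ s ∈ SS k D, s + 1)) / (q : ℝ) ^ a / 2 ≤ A.card ∧
      (A + A).card ≤ (2 * q) ^ N ∧
      ∀ (d : ℕ), d ≤ q → 2 * ((q : ℝ) + 1) * ((q : ℝ) ^ (N - (∑ s ∈ SS k D, s + 1)) + 1) ^
          (d * (d + 3) / 2) * ((q : ℝ) * (d : ℝ) ^ 2) ^ (md N a d + 1) *
          (1 / (q : ℝ) ^ a) ^ md N a d ≤ (q : ℝ) ^ (N - (∑ s ∈ SS k D, s + 1)) →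
        ∀ (P : MvPolynomial (Fin 2) ℝ), P ≠ 0 → P.totalDegree ≤ d → ∀ Z ⊆ A,
        (∀ p ∈ Z, eval ![p.1, p.2] P = 0) →
          Z.card ≤ md N a d ∧ (d ≤ D → Z.card ≤ 2 * mm d * (d * k) * d ^ 2) := by
  classical
  obtain ⟨A₀, hA1, hA2, hA3⟩ := exists_base N k D q hk hk1 hq1
  obtain ⟨b, hb⟩ : ∃ b, b = N - (∑ s ∈ SS k D, s + 1) := ⟨_, rfl⟩
  rw [← hb]
  have hcard : q ^ b ≤ A₀.card := by
    have h1 : q ^ b * q ^ (∑ s ∈ SS k D, s + 1) ≤ A₀.card * q ^ (∑ s ∈ SS k D, s + 1) := by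
      rw [← pow_add, hb, Nat.sub_add_cancel hN]
      exact hA1.trans (Nat.mul_le_mul_left _ (prod_le N k D q hq hq1))
    exact Nat.le_of_mul_le_mul_right h1 (Nat.pow_pos hq1)
  obtain ⟨A₁, hA₁, hA₁c⟩ := Finset.exists_subset_card_eq hcard
  have hq0 : (1 : ℝ) ≤ q := by exact_mod_cast hq1
  have hp1 : 1 / (q : ℝ) ^ a ≤ 1 := by
    rw [div_le_one (by positivity)]
    exact one_le_pow₀ hq0
  obtain ⟨A, hAA, hAc, hA⟩ := exists_delete A₁ (1 / (q : ℝ) ^ a) (by positivity) hp1 q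
    (md N a) (fun d => q * d ^ 2)
    (fun d _ P hP hPd Z hZ hPZ => (hA3 d P hP hPd Z (hZ.trans hA₁) hPZ).1)
  refine ⟨A, ?_, ?_, ?_⟩
  · refine le_trans (le_of_eq ?_) hAc
    rw [hA₁c]
    push_cast
    ring
  · exact (Finset.card_le_card (Finset.add_subset_add (hAA.trans hA₁) (hAA.trans hA₁))).trans hA2
  · intro d hd hcond P hP hPd Z hZ hPZ
    refine ⟨hA d hd ?_ P hP hPd Z hZ hPZ, fun hdD =>
      (hA3 d P hP hPd Z (hZ.trans (hAA.trans hA₁)) hPZ).2 hdD⟩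
    rw [hA₁c]
    push_cast
    exact hcond

theorem cond_eventually (N b a d : ℕ) (hb : b ≤ N) (ha : 3 ≤ a) :
    ∀ᶠ q : ℕ in atTop, 2 * ((q : ℝ) + 1) * ((q : ℝ) ^ b + 1) ^
          (d * (d + 3) / 2) * ((q : ℝ) * (d : ℝ) ^ 2) ^ (md N a d + 1) *
          (1 / (q : ℝ) ^ a) ^ md N a d ≤ (q : ℝ) ^ b := by
  obtain ⟨g, hg⟩ : ∃ g, g = d * (d + 3) / 2 := ⟨_, rfl⟩
  obtain ⟨m, hm⟩ : ∃ m, m = md N a d := ⟨_, rfl⟩
  rw [← hg, ← hm]
  have hexp : 4 + (b + 1) * g + 2 * m ≤ a * m := by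
    obtain ⟨a', rfl⟩ : ∃ a', a = a' + 2 := ⟨a - 2, by omega⟩
    have h1 : (N + 1) * g + 4 ≤ a' * m := by
      rw [hm]
      unfold md
      rw [← hg, Nat.add_sub_cancel, mul_add, mul_one]
      have h2 := Nat.div_add_mod ((N + 1) * g + 4) a'
      have h3 := Nat.mod_lt ((N + 1) * g + 4) (show 0 < a' by omega)
      omega
    have h2 : (b + 1) * g ≤ (N + 1) * g := Nat.mul_le_mul_right _ (by omega)
    have h3 : (a' + 2) * m = a' * m + 2 * m := by ring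
    rw [h3]
    omega
  filter_upwards [eventually_ge_atTop 3, eventually_ge_atTop (d ^ 2)] with q h3 hd
  have hq3 : (3 : ℝ) ≤ q := by exact_mod_cast h3
  have hqd : (d : ℝ) ^ 2 ≤ q := by exact_mod_cast hd
  have hq0 : (0 : ℝ) < q := by linarith
  have hb1 : (1 : ℝ) ≤ (q : ℝ) ^ b := one_le_pow₀ (by linarith)
  have h4 : 2 * ((q : ℝ) + 1) ≤ (q : ℝ) ^ 2 := by nlinarith
  have h5 : (q : ℝ) ^ b + 1 ≤ (q : ℝ) ^ (b + 1) := by
    rw [pow_succ]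
    nlinarith
  have h6 : (q : ℝ) * (d : ℝ) ^ 2 ≤ (q : ℝ) ^ 2 := by
    rw [sq (q : ℝ)]
    exact mul_le_mul_of_nonneg_left hqd hq0.le
  have h7 : 2 * ((q : ℝ) + 1) * ((q : ℝ) ^ b + 1) ^ g * ((q : ℝ) * (d : ℝ) ^ 2) ^ (m + 1) ≤
      (q : ℝ) ^ 2 * ((q : ℝ) ^ (b + 1)) ^ g * ((q : ℝ) ^ 2) ^ (m + 1) := by
    gcongr
  have h8 : (q : ℝ) ^ 2 * ((q : ℝ) ^ (b + 1)) ^ g * ((q : ℝ) ^ 2) ^ (m + 1) =
      (q : ℝ) ^ (4 + (b + 1) * g + 2 * m) := by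
    rw [← pow_mul, ← pow_mul, ← pow_add, ← pow_add]
    congr 1
    ring
  have h9 : (q : ℝ) ^ (4 + (b + 1) * g + 2 * m) ≤ (q : ℝ) ^ (a * m) :=
    pow_le_pow_right₀ (by linarith) hexp
  rw [one_div, inv_pow, ← pow_mul, ← div_eq_mul_inv, div_le_iff₀ (by positivity)]
  calc _ ≤ _ := h7
    _ = _ := h8
    _ ≤ _ := h9
    _ ≤ (q : ℝ) ^ b * (q : ℝ) ^ (a * m) := le_mul_of_one_le_left (by positivity) hb1

theorem doubling_eventually (N b a : ℕ) (hab : a < b) (ε : ℝ) (hε : 0 < ε)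
    (h : (N : ℝ) < (1 + ε) * ((b : ℝ) - a)) :
    ∀ᶠ q : ℕ in atTop, ∀ x y : ℕ, (q : ℝ) ^ b / (q : ℝ) ^ a / 2 ≤ x → y ≤ (2 * q) ^ N →
      (y : ℝ) ≤ (x : ℝ) ^ (1 + ε) := by
  have h1 : ∀ᶠ q : ℕ in atTop, (N + 1 + ε) * Real.log 2 / ((1 + ε) * ((b : ℝ) - a) - N) ≤
      Real.log q :=
    (Real.tendsto_log_atTop.comp tendsto_natCast_atTop_atTop).eventually_ge_atTop _
  filter_upwards [h1, eventually_ge_atTop 1] with q h2 hq x y hx hy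
  have hq1 : (1 : ℝ) ≤ q := by exact_mod_cast hq
  have hq0 : (0 : ℝ) < q := by linarith
  have h3 : (0 : ℝ) < (1 + ε) * ((b : ℝ) - a) - N := by linarith
  rw [div_le_iff₀ h3] at h2
  have h4 : (q : ℝ) ^ b / (q : ℝ) ^ a / 2 = (q : ℝ) ^ (b - a) / 2 := by
    rw [pow_sub₀ _ hq0.ne' hab.le]
    rfl
  rw [h4] at hx
  have hbase : 0 < (q : ℝ) ^ (b - a) / 2 := by positivity
  have h5 : (y : ℝ) ≤ ((2 * q : ℕ) : ℝ) ^ N := by exact_mod_cast hy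
  refine h5.trans ?_
  refine le_trans ?_ (Real.rpow_le_rpow hbase.le hx (by linarith))
  rw [← Real.log_le_log_iff (by positivity) (by positivity), Real.log_rpow hbase,
    Real.log_div (by positivity) two_ne_zero, Real.log_pow, Real.log_pow, Nat.cast_sub hab.le]
  push_cast
  rw [Real.log_mul two_ne_zero hq0.ne']
  nlinarith

theorem exists_seq (N k D a : ℕ) (hk : N < 2 ^ k) (hk1 : 1 ≤ k) (ha : 3 ≤ a)
    (hN : ∑ s ∈ SS k D, s + 1 + a < N) (ε : ℝ) (hε : 0 < ε)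
    (h : (N : ℝ) < (1 + ε) * (N - (∑ s ∈ SS k D, s + 1 + a : ℕ))) :
    ∃ A : ℕ → Finset (ℝ × ℝ), Tendsto (fun n => (A n).card) atTop atTop ∧
      (∀ᶠ n in atTop, (((A n + A n).card : ℕ) : ℝ) ≤ (((A n).card : ℕ) : ℝ) ^ (1 + ε)) ∧
      ∀ d, ∀ᶠ n in atTop, ∀ (P : MvPolynomial (Fin 2) ℝ), P ≠ 0 → P.totalDegree ≤ d →
        ∀ Z ⊆ A n, (∀ p ∈ Z, eval ![p.1, p.2] P = 0) →
          Z.card ≤ md N a d ∧ (d ≤ D → Z.card ≤ 2 * mm d * (d * k) * d ^ 2) := by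
  classical
  have hst : ∀ q : ℕ, ∃ A : Finset (ℝ × ℝ), (N + 1) ^ (SS k D).card ≤ q → 1 ≤ q →
      (q : ℝ) ^ (N - (∑ s ∈ SS k D, s + 1)) / (q : ℝ) ^ a / 2 ≤ A.card ∧
      (A + A).card ≤ (2 * q) ^ N ∧
      ∀ (d : ℕ), d ≤ q → 2 * ((q : ℝ) + 1) * ((q : ℝ) ^ (N - (∑ s ∈ SS k D, s + 1)) + 1) ^
          (d * (d + 3) / 2) * ((q : ℝ) * (d : ℝ) ^ 2) ^ (md N a d + 1) *
          (1 / (q : ℝ) ^ a) ^ md N a d ≤ (q : ℝ) ^ (N - (∑ s ∈ SS k D, s + 1)) →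
        ∀ (P : MvPolynomial (Fin 2) ℝ), P ≠ 0 → P.totalDegree ≤ d → ∀ Z ⊆ A,
        (∀ p ∈ Z, eval ![p.1, p.2] P = 0) →
          Z.card ≤ md N a d ∧ (d ≤ D → Z.card ≤ 2 * mm d * (d * k) * d ^ 2) := by
    intro q
    by_cases hq : (N + 1) ^ (SS k D).card ≤ q ∧ 1 ≤ q
    · obtain ⟨A, hA⟩ := exists_stage N k D a q hk hk1 (by omega) hq.1 hq.2
      exact ⟨A, fun _ _ => hA⟩
    · exact ⟨∅, fun h1 h2 => absurd ⟨h1, h2⟩ hq⟩
  choose A hA using hst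
  obtain ⟨b, hb⟩ : ∃ b, b = N - (∑ s ∈ SS k D, s + 1) := ⟨_, rfl⟩
  rw [← hb] at hA
  have hab : a < b := by omega
  refine ⟨A, ?_, ?_, ?_⟩
  · have h1 : Tendsto (fun n : ℕ => (n : ℝ) / 2) atTop atTop :=
      (tendsto_natCast_atTop_atTop (R := ℝ)).atTop_div_const two_pos
    refine tendsto_natCast_atTop_iff (R := ℝ).mp (tendsto_atTop_mono' _ ?_ h1)
    filter_upwards [eventually_ge_atTop ((N + 1) ^ (SS k D).card), eventually_ge_atTop 1]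
      with q h2 h3
    refine le_trans ?_ (hA q h2 h3).1
    have hq1 : (1 : ℝ) ≤ q := by exact_mod_cast h3
    have h4 : (q : ℝ) ^ b / (q : ℝ) ^ a = (q : ℝ) ^ (b - a) := by
      rw [pow_sub₀ _ (by positivity) hab.le]
      rfl
    rw [h4]
    apply div_le_div_of_nonneg_right _ two_pos.le
    calc (q : ℝ) = (q : ℝ) ^ 1 := (pow_one _).symm
      _ ≤ (q : ℝ) ^ (b - a) := pow_le_pow_right₀ hq1 (by omega)
  · filter_upwards [doubling_eventually N b a hab ε hε (by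
      rw [hb, Nat.cast_sub (by omega)]
      push_cast at h ⊢
      linarith), eventually_ge_atTop ((N + 1) ^ (SS k D).card), eventually_ge_atTop 1]
      with q h1 h2 h3
    exact h1 _ _ (hA q h2 h3).1 (hA q h2 h3).2.1
  · intro d
    filter_upwards [cond_eventually N b a d (by omega) ha,
      eventually_ge_atTop ((N + 1) ^ (SS k D).card), eventually_ge_atTop 1,
      eventually_ge_atTop d] with q h1 h2 h3 h4
    exact (hA q h2 h3).2.2 d h4 h1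

end Pool.Agent.H21.PA
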