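import Mathlib

/-!
A discrete valuation ring above `2` in a number field of degree at most `d`.
-/

set_option autoImplicit false

namespace Pool.Agent.H21.PA

open NumberField in
/-- A maximal ideal above `2`: `2 ∉ P ^ (d + 1)`, and the residue field has `2 ^ f` elements,
`1 ≤ f ≤ d`. -/
private theorem exists_prime (L : Type) [Field L] [NumberField L] (d : ℕ)
    (hd : Module.finrank ℚ L ≤ d) :
    ∃ P : Ideal (𝓞 L), P.IsMaximal ∧ (2 : 𝓞 L) ∈ P ∧ (2 : 𝓞 L) ∉ P ^ (d + 1) ∧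
      ∃ f : ℕ, 1 ≤ f ∧ f ≤ d ∧ Nat.card (𝓞 L ⧸ P) = 2 ^ f := by
  have hn : Ideal.absNorm (Ideal.span {(2 : 𝓞 L)}) = 2 ^ Module.finrank ℚ L := by
    rw [Ideal.absNorm_span_singleton]
    have h : (2 : 𝓞 L) = algebraMap ℤ (𝓞 L) 2 := by simp
    rw [h, Algebra.norm_algebraMap, RingOfIntegers.rank]
    simp [Int.natAbs_pow]
  have hpos : 0 < Module.finrank ℚ L := Module.finrank_pos
  have h2 : Ideal.span {(2 : 𝓞 L)} ≠ ⊤ := by
    intro h
    rw [h, Ideal.absNorm_top] at hn
    have : 1 < 2 ^ Module.finrank ℚ L := Nat.one_lt_two_pow hpos.ne'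
    omega
  obtain ⟨P, hP, hle⟩ := Ideal.exists_le_maximal _ h2
  have h2P : (2 : 𝓞 L) ∈ P := hle (Ideal.mem_span_singleton_self _)
  have hdvd : Ideal.absNorm P ∣ 2 ^ Module.finrank ℚ L := by
    rw [← hn]
    exact Ideal.absNorm_dvd_absNorm_of_le hle
  obtain ⟨f, hf, hPf⟩ := (Nat.dvd_prime_pow Nat.prime_two).1 hdvd
  have hf1 : 1 ≤ f := by
    by_contra h
    have h0 : f = 0 := by omega
    rw [h0, pow_zero, Ideal.absNorm_eq_one_iff] at hPf
    exact hP.ne_top hPf
  refine ⟨P, hP, h2P, ?_, f, hf1, hf.trans hd, ?_⟩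
  · intro h
    have hle' : Ideal.span {(2 : 𝓞 L)} ≤ P ^ (d + 1) := by
      rw [Ideal.span_le]
      simpa using h
    have h1 := Ideal.absNorm_dvd_absNorm_of_le hle'
    rw [hn, map_pow, hPf, ← pow_mul] at h1
    have h3 := (Nat.pow_dvd_pow_iff_le_right (by norm_num : 1 < 2)).1 h1
    have h4 : d + 1 ≤ f * (d + 1) := Nat.le_mul_of_pos_left _ hf1
    omega
  · rw [← hPf, Ideal.absNorm_apply, Submodule.cardQuot_apply]

/-- In a number field `L` of degree at most `d` there is a discrete valuation ring `V` with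
fraction field `L`, maximal ideal `𝔪 ∋ 2`, `2 ∉ 𝔪 ^ (d + 1)`, and `z ^ m - 1 ∈ 𝔪` for all
`z ∉ 𝔪`, if `m` is divisible by all `2 ^ f - 1`, `1 ≤ f ≤ d`. -/
theorem exists_dvr (L : Type) [Field L] [NumberField L] (d : ℕ)
    (hd : Module.finrank ℚ L ≤ d) (m : ℕ) (hm : ∀ f, 1 ≤ f → f ≤ d → 2 ^ f - 1 ∣ m) :
    ∃ (V : Type) (_ : CommRing V) (_ : IsDomain V) (_ : IsDiscreteValuationRing V)
      (_ : Algebra V L) (_ : IsFractionRing V L),
      (2 : V) ∈ IsLocalRing.maximalIdeal V ∧ (2 : V) ∉ IsLocalRing.maximalIdeal V ^ (d + 1) ∧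
      ∀ z : V, z ∉ IsLocalRing.maximalIdeal V → z ^ m - 1 ∈ IsLocalRing.maximalIdeal V := by
  obtain ⟨P, hP, h2P, h2, f, hf1, hfd, hcard⟩ := exists_prime L d hd
  have hP0 : P ≠ ⊥ := by
    rintro rfl
    exact two_ne_zero ((Ideal.mem_bot).1 h2P)
  let V := Localization.subalgebra.ofField L P.primeCompl P.primeCompl_le_nonZeroDivisors
  have hloc : IsLocalization.AtPrime V P :=
    Localization.subalgebra.isLocalization_ofField L P.primeCompl P.primeCompl_le_nonZeroDivisors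
  have hdvr : IsDiscreteValuationRing V :=
    IsLocalization.AtPrime.isDiscreteValuationRing_of_dedekind_domain
      (NumberField.RingOfIntegers L) hP0 V
  have e2 : algebraMap (NumberField.RingOfIntegers L) V 2 = 2 := map_ofNat _ 2
  refine ⟨V, inferInstance, inferInstance, hdvr, inferInstance, inferInstance, ?_, ?_, ?_⟩
  · have := (IsLocalization.AtPrime.to_map_mem_maximal_iff V P 2).2 h2P
    rwa [e2] at this
  · intro h
    rw [← IsLocalization.AtPrime.map_eq_maximalIdeal P V, ← Ideal.map_pow] at h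
    rw [← e2, IsLocalization.algebraMap_mem_map_algebraMap_iff P.primeCompl] at h
    obtain ⟨s, hs, h⟩ := h
    exact h2 ((Ideal.IsMaximal.mul_mem_pow P h).resolve_left hs)
  · intro z hz
    let e := IsLocalization.AtPrime.equivQuotMaximalIdeal P V
    have hcardV : Nat.card (V ⧸ IsLocalRing.maximalIdeal V) = 2 ^ f := by
      rw [← hcard]
      exact (Nat.card_congr e.toEquiv).symm
    have hfin : Finite (V ⧸ IsLocalRing.maximalIdeal V) :=
      Nat.finite_of_card_ne_zero (by rw [hcardV]; positivity)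
    let _ := Ideal.Quotient.field (IsLocalRing.maximalIdeal V)
    let _ := Fintype.ofFinite (V ⧸ IsLocalRing.maximalIdeal V)
    have hz0 : Ideal.Quotient.mk (IsLocalRing.maximalIdeal V) z ≠ 0 := fun h =>
      hz (Ideal.Quotient.eq_zero_iff_mem.1 h)
    have h1 := FiniteField.pow_card_sub_one_eq_one _ hz0
    rw [← Nat.card_eq_fintype_card, hcardV] at h1
    obtain ⟨c, hc⟩ := hm f hf1 hfd
    rw [← Ideal.Quotient.eq_zero_iff_mem, map_sub, map_pow, map_one, hc, pow_mul, h1, one_pow,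
      sub_self]

end Pool.Agent.H21.PA
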