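import Pool.Agent.H21.PA.Gen

/-!
The velocity of the points along a curve over the field of rational functions.
-/

set_option autoImplicit false

open MvPolynomial

namespace Pool.Agent.H21.PA

open Pool.Agent.H54 (exf mon poly)

variable {n : Type*} [Fintype n] [DecidableEq n]

theorem pderiv_ptq (x : n → ℕ) (l : Fin 2) (i : n) (l' : Fin 2) :
    pderiv (l, i) (ptq x l') = if l' = l then (x i : RA n) else 0 := by
  classical
  unfold ptq
  rw [map_sum]
  have h1 : ∀ j, pderiv (l, i) (X (l', j) * (x j : RA n) : RA n) =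
      if (l', j) = (l, i) then (x j : RA n) else 0 := by
    intro j
    rw [pderiv_mul, show (pderiv (l, i)) (x j : RA n) = 0 from Derivation.map_natCast _ _,
      mul_zero, add_zero, pderiv_X]
    by_cases h : (l', j) = (l, i)
    · rw [if_pos h, h, Pi.single_eq_same, one_mul]
    · rw [if_neg h, Pi.single_eq_of_ne (fun h2 => h h2), zero_mul]
  rw [Finset.sum_congr rfl fun j _ => h1 j]
  by_cases hl : l' = l
  · rw [if_pos hl, Finset.sum_eq_single i]
    · rw [if_pos (by rw [hl])]
    · intro j _ hj
      rw [if_neg (fun h => hj (Prod.ext_iff.mp h).2)]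
    · intro h
      exact absurd (Finset.mem_univ _) h
  · rw [if_neg hl]
    apply Finset.sum_eq_zero
    intro j _
    rw [if_neg (fun h => hl (Prod.ext_iff.mp h).1)]

/-- The velocity: differentiate `P(T x) = 0` with respect to an entry of the matrix. -/
theorem velocity (e : ℕ) (c : exf e → RA n) (x : n → ℕ) (l : Fin 2) (i : n)
    (h : eval (ptq x) (poly e c) = 0) :
    eval (ptq x) (poly e fun p => pderiv (l, i) (c p)) +
      (x i : RA n) * eval (ptq x) (pderiv l (poly e c)) = 0 := by
  classical
  rw [H54.eval_poly] at h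
  have h1 := congrArg (pderiv (l, i)) h
  rw [map_sum, map_zero] at h1
  rw [H54.eval_poly, ← h1]
  have h2 : eval (ptq x) (pderiv l (poly e c)) =
      ∑ p : exf e, c p * eval (ptq x) (pderiv l (mon p.1 MvPolynomial.X)) := by
    unfold poly
    rw [map_sum, map_sum]
    refine Finset.sum_congr rfl fun p _ => ?_
    rw [pderiv_mul, pderiv_C, zero_mul, zero_add, map_mul, eval_C]
  rw [h2, Finset.mul_sum, ← Finset.sum_add_distrib]
  refine Finset.sum_congr rfl fun p _ => ?_
  rw [pderiv_mul]
  have h3 : pderiv (l, i) (mon p.1 (ptq x)) =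
      (x i : RA n) * eval (ptq x) (pderiv l (mon p.1 (MvPolynomial.X : Fin 2 → _))) := by
    have e0 := pderiv_ptq x l i 0
    have e1 := pderiv_ptq x l i 1
    unfold mon
    rw [pderiv_mul, pderiv_pow, pderiv_pow, e0, e1]
    fin_cases l
    · simp [pderiv_X]
      ring
    · simp [pderiv_X]
      ring
  rw [h3]
  ring

end Pool.Agent.H21.PA
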